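import Mathlib

/-! Uniform Möbius bounds for quadratic phases (for MP_7a8f48_an): statements of the tasks. -/

set_option autoImplicit false

open Finset

namespace Pool.Agent.Helper188.NCM

/-- `e(x) = exp(2πix)` -/
noncomputable def ee (x : ℝ) : ℂ := Complex.exp (2 * Real.pi * Complex.I * x)

/-- the Möbius function with complex values -/
noncomputable def mob (n : ℕ) : ℂ := ((ArithmeticFunction.moebius n : ℤ) : ℂ)

/-- `∑_{n<N} μ(n) e(A n² + B n) = o(N)`, uniformly in `B`, for the fixed number `A` -/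
def QM (A : ℝ) : Prop := ∀ ε : ℝ, 0 < ε → ∃ N₀ : ℕ, ∀ N ≥ N₀, ∀ B : ℝ,
  ‖∑ n ∈ range N, mob n * ee (A * (n : ℝ) ^ 2 + B * n)‖ ≤ ε * N

/-- the Kátai-Bourgain-Sarnak-Ziegler criterion, uniform in a parameter -/
def KBSZ : Prop := ∀ (ι : Type) (f : ι → ℕ → ℂ), (∀ i n, ‖f i n‖ ≤ 1) →
  (∀ p q : ℕ, p.Prime → q.Prime → p ≠ q → ∀ ε : ℝ, 0 < ε → ∃ N₀ : ℕ, ∀ N ≥ N₀, ∀ i,
    ‖∑ n ∈ range N, f i (p * n) * star (f i (q * n))‖ ≤ ε * N) →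
  ∀ ε : ℝ, 0 < ε → ∃ N₀ : ℕ, ∀ N ≥ N₀, ∀ i, ‖∑ n ∈ range N, mob n * f i n‖ ≤ ε * N

/-- Weyl's bound for quadratic phases with irrational leading coefficient, uniform in `B` -/
def Weyl : Prop := ∀ A : ℝ, Irrational A → ∀ ε : ℝ, 0 < ε → ∃ N₀ : ℕ, ∀ N ≥ N₀, ∀ B : ℝ,
  ‖∑ n ∈ range N, ee (A * (n : ℝ) ^ 2 + B * n)‖ ≤ ε * N

/-- the case of a rational leading coefficient -/
def RatCase : Prop := QM 0 → ∀ (p : ℤ) (q : ℕ), 0 < q → QM ((p : ℝ) / q)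

/-- residue classes -/
def APCase : Prop := ∀ (a : ℝ) (m r : ℕ), 0 < m → r < m → QM (a / (2 * (m : ℝ) ^ 2)) →
  ∀ ε : ℝ, 0 < ε → ∃ N₀ : ℕ, ∀ N ≥ N₀, ∀ β : ℝ,
    ‖∑ j ∈ range N, mob (m * j + r) * ee (a * ((j : ℝ) * (j - 1) / 2) + β * j)‖ ≤ ε * N

def TaskKBSZ : Prop := KBSZ
def TaskWeyl : Prop := Weyl
def TaskRat : Prop := RatCase
def TaskAP : Prop := APCase

end Pool.Agent.Helper188.NCM
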