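import Mathlib
import Pool.Agent.Helper188.NCM.Stmts

/-! Bogoliubov automorphisms of Cuntz algebras (for MP_7a8f48_an): statements of the tasks. -/

set_option autoImplicit false

open Finset

namespace Pool.Agent.Helper188.NCM

/-- positive definite sequences: `∑ c_n conj(c_m) g(n-m) ≤ g(0) max |∑ c_n e(nβ)|²` -/
def TaskPD : Prop := ∀ g : ℤ → ℂ,
  (∀ (M : ℕ) (x : ℕ → ℂ),
    0 ≤ (∑ n ∈ range M, ∑ m ∈ range M, x n * star (x m) * g ((n : ℤ) - m)).re ∧
    (∑ n ∈ range M, ∑ m ∈ range M, x n * star (x m) * g ((n : ℤ) - m)).im = 0) →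
  ∀ (N : ℕ) (c : ℕ → ℂ) (C : ℝ), 0 ≤ C →
    (∀ β : ℝ, ‖∑ n ∈ range N, c n * ee (β * n)‖ ≤ C) →
    (∑ n ∈ range N, ∑ m ∈ range N, c n * star (c m) * g ((n : ℤ) - m)).re ≤ C ^ 2 * (g 0).re

/-- Hilbert-Schmidt type inequality -/
def TaskHS : Prop := ∀ (U : Type) [CStarAlgebra U] [Nontrivial U] (A B : ℕ → U) (a b : ℕ → ℕ → ℂ),
  (∀ m n, star (A m) * A n = a m n • 1) → (∀ m n, star (B m) * B n = b m n • 1) →
  ∀ (N : ℕ) (c : ℕ → ℂ),
    ‖∑ n ∈ range N, c n • (A n * star (B n))‖ ^ 2 ≤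
      (∑ n ∈ range N, ∑ m ∈ range N, c n * star (c m) * (b n m * a m n)).re ∧
    (∑ n ∈ range N, ∑ m ∈ range N, c n * star (c m) * (b n m * a m n)).im = 0

/-- words in the generators of a Cuntz type algebra -/
noncomputable def cword {U H : Type} [CStarAlgebra U] [NormedAddCommGroup H] [InnerProductSpace ℂ H]
    (s : H →ₗ[ℂ] U) (p : List H × List H) : U :=
  (p.1.map s).prod * star ((p.2.map s).prod)

/-- the words span the algebra -/
def TaskWords : Prop := ∀ (U H : Type) [CStarAlgebra U] [NormedAddCommGroup H]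
  [InnerProductSpace ℂ H] (s : H →ₗ[ℂ] U),
  (∀ η ξ : H, star (s η) * s ξ = inner ℂ η ξ • 1) →
  (StarAlgebra.adjoin ℂ (Set.range s)).topologicalClosure = ⊤ →
  (Submodule.span ℂ (Set.range (cword s))).topologicalClosure = ⊤

end Pool.Agent.Helper188.NCM
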