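import Pool.Agent.Helper188.NCM.Stmts

set_option autoImplicit false

open Finset

namespace Pool.Agent.Helper188.NCM.AP21

theorem ee_add (x y : ℝ) : ee (x + y) = ee x * ee y := by
  unfold ee
  rw [← Complex.exp_add]
  congr 1
  push_cast
  ring

theorem ee_zero : ee 0 = 1 := by
  unfold ee
  simp

theorem ee_norm (x : ℝ) : ‖ee x‖ = 1 := by
  unfold ee
  rw [show 2 * (Real.pi : ℂ) * Complex.I * (x : ℂ) = ((2 * Real.pi * x : ℝ) : ℂ) * Complex.I by
    push_cast; ring]
  exact Complex.norm_exp_ofReal_mul_I _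

theorem ee_int (k : ℤ) : ee (k : ℝ) = 1 := by
  unfold ee
  rw [Complex.exp_eq_one_iff]
  exact ⟨k, by push_cast; ring⟩

theorem ee_pow (x : ℝ) (l : ℕ) : ee (l * x) = ee x ^ l := by
  unfold ee
  rw [← Complex.exp_nat_mul]
  congr 1
  push_cast
  ring

theorem ee_eq_one {x : ℝ} (h : ee x = 1) : ∃ k : ℤ, x = k := by
  unfold ee at h
  rw [Complex.exp_eq_one_iff] at h
  obtain ⟨k, hk⟩ := h
  refine ⟨k, ?_⟩
  have hpi : (2 * (Real.pi : ℂ) * Complex.I) ≠ 0 := by
    simp [Real.pi_ne_zero, Complex.I_ne_zero]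
  have h2 : (2 * (Real.pi : ℂ) * Complex.I) * (x : ℂ) = (2 * (Real.pi : ℂ) * Complex.I) * (k : ℂ) := by
    rw [hk]; ring
  have h3 := mul_left_cancel₀ hpi h2
  exact_mod_cast h3

theorem ind (m r n : ℕ) (hm : 0 < m) (hr : r < m) :
    ∑ l ∈ range m, ee (l * (((n : ℝ) - r) / m)) = if n % m = r then (m : ℂ) else 0 := by
  have hm0 : (m : ℝ) ≠ 0 := by positivity
  simp only [ee_pow]
  by_cases h : n % m = r
  · rw [if_pos h]
    obtain ⟨k, hk⟩ : ∃ k : ℕ, n = m * k + r := ⟨n / m, by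
      have h3 := Nat.div_add_mod n m
      rw [h] at h3
      exact h3.symm⟩
    have h1 : ((n : ℝ) - r) / m = ((k : ℤ) : ℝ) := by
      rw [div_eq_iff hm0, hk]
      push_cast
      ring
    rw [h1, ee_int]
    simp
  · rw [if_neg h]
    have hne : ee (((n : ℝ) - r) / m) ≠ 1 := by
      intro h1
      obtain ⟨k, hk⟩ := ee_eq_one h1
      rw [div_eq_iff hm0] at hk
      have h2 : (n : ℤ) - r = k * m := by exact_mod_cast hk
      apply h
      have h3 : (n : ℤ) % m = r := by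
        have h4 : (n : ℤ) = r + m * k := by linarith
        rw [h4, Int.add_mul_emod_self_left]
        exact Int.emod_eq_of_lt (by positivity) (by exact_mod_cast hr)
      exact_mod_cast h3
    have h5 : ee (((n : ℝ) - r) / m) ^ m = 1 := by
      rw [← ee_pow]
      have h6 : (m : ℝ) * (((n : ℝ) - r) / m) = (((n : ℤ) - r : ℤ) : ℝ) := by
        rw [mul_div_cancel₀ _ hm0]
        push_cast
        ring
      rw [h6, ee_int]
    have h7 := geom_sum_mul (ee (((n : ℝ) - r) / m)) m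
    rw [h5, sub_self] at h7
    exact (mul_eq_zero.1 h7).resolve_right (sub_ne_zero.2 hne)

theorem reidx (g : ℕ → ℂ) (m r : ℕ) (hr : r < m) (N : ℕ) :
    ∑ j ∈ range N, g (m * j + r) = ∑ n ∈ range (m * N), if n % m = r then g n else 0 := by
  induction N with
  | zero => simp
  | succ N ih =>
    rw [sum_range_succ, ih, Nat.mul_succ, sum_range_add]
    congr 1
    have h1 : ∀ x ∈ range m, (if (m * N + x) % m = r then g (m * N + x) else 0) =
        if x = r then g (m * N + x) else 0 := by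
      intro x hx
      rw [Nat.mul_add_mod, Nat.mod_eq_of_lt (mem_range.1 hx)]
    rw [sum_congr rfl h1, sum_ite_eq' (range m) r, if_pos (mem_range.2 hr)]

theorem taskAP : TaskAP := by
  intro a m r hm hr hQ ε hε
  have hm0 : (0 : ℝ) < m := by exact_mod_cast hm
  obtain ⟨N₀, hN₀⟩ := hQ (ε / m) (by positivity)
  refine ⟨N₀, fun N hN β => ?_⟩
  set A : ℝ := a / (2 * (m : ℝ) ^ 2) with hA
  set B : ℝ := -(a * r / (m : ℝ) ^ 2) + (β - a / 2) / m with hB
  set C : ℝ := a * (r : ℝ) ^ 2 / (2 * (m : ℝ) ^ 2) - (β - a / 2) * r / m with hC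
  have e1 : ∀ j : ℕ, ee (a * ((j : ℝ) * (j - 1) / 2) + β * j) =
      ee C * ee (A * ((m * j + r : ℕ) : ℝ) ^ 2 + B * ((m * j + r : ℕ) : ℝ)) := by
    intro j
    rw [← ee_add]
    congr 1
    rw [hA, hB, hC]
    push_cast
    field_simp
    ring
  have e2 : ∑ j ∈ range N, mob (m * j + r) * ee (a * ((j : ℝ) * (j - 1) / 2) + β * j) =
      ee C * ∑ j ∈ range N, (fun n : ℕ => mob n * ee (A * (n : ℝ) ^ 2 + B * n)) (m * j + r) := by
    rw [mul_sum]
    refine sum_congr rfl fun j _ => ?_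
    rw [e1 j]
    simp only
    ring
  have e3 : ∀ n : ℕ, (if n % m = r then mob n * ee (A * (n : ℝ) ^ 2 + B * n) else 0) =
      ∑ l ∈ range m, (1 / (m : ℂ)) * ee (-(l * (r : ℝ) / m)) *
        (mob n * ee (A * (n : ℝ) ^ 2 + (B + l / m) * n)) := by
    intro n
    have h1 : ∀ l : ℕ, (1 / (m : ℂ)) * ee (-(l * (r : ℝ) / m)) *
        (mob n * ee (A * (n : ℝ) ^ 2 + (B + l / m) * n)) =
        (1 / (m : ℂ)) * (mob n * ee (A * (n : ℝ) ^ 2 + B * n)) * ee (l * (((n : ℝ) - r) / m)) := by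
      intro l
      have h2 : A * (n : ℝ) ^ 2 + (B + l / m) * n + -(l * (r : ℝ) / m) =
          (A * (n : ℝ) ^ 2 + B * n) + (l * (((n : ℝ) - r) / m)) := by
        field_simp
        ring
      have h3 : ee (A * (n : ℝ) ^ 2 + (B + l / m) * n) * ee (-(l * (r : ℝ) / m)) =
          ee (A * (n : ℝ) ^ 2 + B * n) * ee (l * (((n : ℝ) - r) / m)) := by
        rw [← ee_add, h2, ee_add]
      calc _ = (1 / (m : ℂ)) * mob n * (ee (A * (n : ℝ) ^ 2 + (B + l / m) * n) *
            ee (-(l * (r : ℝ) / m))) := by ring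
        _ = _ := by rw [h3]; ring
    rw [sum_congr rfl fun l _ => h1 l, ← mul_sum, ind m r n hm hr]
    have hmc : (m : ℂ) ≠ 0 := by exact_mod_cast hm.ne'
    split_ifs
    · field_simp
    · simp
  rw [e2, reidx (fun n : ℕ => mob n * ee (A * (n : ℝ) ^ 2 + B * n)) m r hr N]
  rw [sum_congr rfl fun n _ => e3 n, sum_comm, norm_mul, ee_norm, one_mul]
  have hmN : N₀ ≤ m * N := hN.trans (Nat.le_mul_of_pos_left N hm)
  calc ‖∑ l ∈ range m, ∑ n ∈ range (m * N), (1 / (m : ℂ)) * ee (-(l * (r : ℝ) / m)) *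
        (mob n * ee (A * (n : ℝ) ^ 2 + (B + l / m) * n))‖
      ≤ ∑ l ∈ range m, ‖∑ n ∈ range (m * N), (1 / (m : ℂ)) * ee (-(l * (r : ℝ) / m)) *
        (mob n * ee (A * (n : ℝ) ^ 2 + (B + l / m) * n))‖ := norm_sum_le _ _
    _ ≤ ∑ l ∈ range m, (1 / (m : ℝ)) * (ε / m * ((m * N : ℕ) : ℝ)) := by
        refine sum_le_sum fun l _ => ?_
        rw [← mul_sum, norm_mul, norm_mul, ee_norm, mul_one, norm_div, norm_one, Complex.norm_natCast]
        exact mul_le_mul_of_nonneg_left (hN₀ (m * N) hmN (B + l / m)) (by positivity)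
    _ = ε * N := by
        rw [sum_const, card_range, nsmul_eq_mul]
        push_cast
        field_simp

end Pool.Agent.Helper188.NCM.AP21
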