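import Pool.Agent.Helper188.NCM.Stmts

set_option autoImplicit false

open Finset Filter Topology

namespace Pool.Agent.Helper188.NCM

theorem ee_add (x y : ℝ) : ee (x + y) = ee x * ee y := by
  simp only [ee, ← Complex.exp_add]
  congr 1; push_cast; ring

theorem norm_ee (x : ℝ) : ‖ee x‖ = 1 := by
  have : (2 * Real.pi * Complex.I * x : ℂ) = ((2 * Real.pi * x : ℝ) : ℂ) * Complex.I := by
    push_cast; ring
  rw [ee, this, Complex.norm_exp_ofReal_mul_I]

theorem ee_zero : ee 0 = 1 := by simp [ee]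

theorem ee_nat_mul (x : ℝ) (j : ℕ) : ee (x * j) = ee x ^ j := by
  rw [ee, ee, ← Complex.exp_nat_mul]
  congr 1; push_cast; ring

theorem exists_ee {z : ℂ} (hz : ‖z‖ = 1) : ∃ x : ℝ, z = ee x := by
  obtain ⟨θ, hθ⟩ := (Complex.norm_eq_one_iff z).1 hz
  refine ⟨θ / (2 * Real.pi), ?_⟩
  rw [← hθ, ee]
  congr 1
  push_cast
  field_simp

theorem norm_mob_le (n : ℕ) : ‖mob n‖ ≤ 1 := by
  rw [mob, Complex.norm_intCast]
  have := ArithmeticFunction.abs_moebius_le_one (n := n)
  exact_mod_cast this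

section

variable {U : Type} [CStarAlgebra U]

/-- norm of a polynomial in a unitary -/
theorem norm_poly_le (u : U) (hu : u ∈ unitary U) (N : ℕ) (c : ℕ → ℂ) (C : ℝ)
    (hC : ∀ β : ℝ, ‖∑ j ∈ range N, c j * ee (β * j)‖ ≤ C) :
    ‖∑ j ∈ range N, c j • u ^ j‖ ≤ C := by
  have hn : IsStarNormal u := ⟨by
    rw [commute_iff_eq, Unitary.star_mul_self_of_mem hu, Unitary.mul_star_self_of_mem hu]⟩
  have h1 : cfc (fun t : ℂ => ∑ j ∈ range N, c j * t ^ j) u = ∑ j ∈ range N, c j • u ^ j := by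
    have e : (fun t : ℂ => ∑ j ∈ range N, c j * t ^ j)
        = ∑ j ∈ range N, (fun t : ℂ => c j * t ^ j) := by
      funext t; simp
    rw [e, cfc_sum (fun j => fun t : ℂ => c j * t ^ j) u (range N)
      (fun i _ => by fun_prop)]
    refine Finset.sum_congr rfl fun j _ => ?_
    rw [cfc_const_mul (c j) (fun t : ℂ => t ^ j) u (by fun_prop), cfc_pow_id u j]
  rw [← h1]
  have hC0 : 0 ≤ C := (norm_nonneg _).trans (hC 0)
  refine norm_cfc_le hC0 fun t ht => ?_
  have h2 : ‖t‖ = 1 := by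
    have := spectrum.subset_circle_of_unitary hu ht
    simpa using this
  obtain ⟨x, rfl⟩ := exists_ee h2
  have := hC x
  simpa only [ee_nat_mul] using this

/-- the orbit of an element of class two -/
theorem orbit_formula (β : U →⋆ₐ[ℂ] U) (w z : U) (a : ℝ) (hw : β w = w * z) (hz : β z = ee a • z)
    (j : ℕ) : (β^[j]) w = ee (a * ((j : ℝ) * (j - 1) / 2)) • (w * z ^ j) := by
  induction j with
  | zero => simp [ee_zero]
  | succ j ih =>
    rw [Function.iterate_succ_apply', ih, map_smul, map_mul, map_pow, hw, hz, smul_pow,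
      mul_smul_comm, smul_smul, ← ee_nat_mul, ← ee_add, mul_assoc, ← pow_succ']
    congr 2
    push_cast; ring

/-- the property to be proved -/
def PP (α : U →⋆ₐ[ℂ] U) (x : U) : Prop :=
  ∀ ε : ℝ, 0 < ε → ∃ N₀ : ℕ, ∀ N ≥ N₀, ‖∑ n ∈ range N, mob n • (α^[n]) x‖ ≤ ε * N

theorem norm_iter_le (α : U →⋆ₐ[ℂ] U) (n : ℕ) (x : U) : ‖(α^[n]) x‖ ≤ ‖x‖ := by
  induction n with
  | zero => simp
  | succ n ih =>
    rw [Function.iterate_succ_apply']
    exact (NonUnitalStarAlgHom.norm_apply_le α _).trans ih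

theorem iter_add (α : U →⋆ₐ[ℂ] U) (n : ℕ) (x y : U) : (α^[n]) (x + y) = (α^[n]) x + (α^[n]) y := by
  induction n generalizing x y with
  | zero => simp
  | succ n ih => rw [Function.iterate_succ_apply, Function.iterate_succ_apply,
      Function.iterate_succ_apply, map_add, ih]

theorem iter_smul (α : U →⋆ₐ[ℂ] U) (n : ℕ) (c : ℂ) (x : U) : (α^[n]) (c • x) = c • (α^[n]) x := by
  induction n generalizing x with
  | zero => simp
  | succ n ih => rw [Function.iterate_succ_apply, Function.iterate_succ_apply, map_smul, ih]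

theorem iter_mul (α : U →⋆ₐ[ℂ] U) (n : ℕ) (x y : U) : (α^[n]) (x * y) = (α^[n]) x * (α^[n]) y := by
  induction n generalizing x y with
  | zero => simp
  | succ n ih => rw [Function.iterate_succ_apply, Function.iterate_succ_apply,
      Function.iterate_succ_apply, map_mul, ih]

theorem iter_pow (α : U →⋆ₐ[ℂ] U) (n : ℕ) (x : U) (j : ℕ) : (α^[n]) (x ^ j) = ((α^[n]) x) ^ j := by
  induction n generalizing x with
  | zero => simp
  | succ n ih => rw [Function.iterate_succ_apply, Function.iterate_succ_apply, map_pow, ih]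

theorem iter_unitary (α : U →⋆ₐ[ℂ] U) (n : ℕ) {x : U} (hx : x ∈ unitary U) :
    (α^[n]) x ∈ unitary U := by
  induction n generalizing x with
  | zero => simpa using hx
  | succ n ih =>
    rw [Function.iterate_succ_apply]
    exact ih (Unitary.map_mem α hx)

theorem iter_sub (α : U →⋆ₐ[ℂ] U) (n : ℕ) (x y : U) : (α^[n]) (x - y) = (α^[n]) x - (α^[n]) y := by
  induction n generalizing x y with
  | zero => simp
  | succ n ih => rw [Function.iterate_succ_apply, Function.iterate_succ_apply,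
      Function.iterate_succ_apply, map_sub, ih]

theorem PP.add {α : U →⋆ₐ[ℂ] U} {x y : U} (hx : PP α x) (hy : PP α y) : PP α (x + y) := by
  intro ε hε
  obtain ⟨N1, h1⟩ := hx (ε / 2) (by positivity)
  obtain ⟨N2, h2⟩ := hy (ε / 2) (by positivity)
  refine ⟨max N1 N2, fun N hN => ?_⟩
  have g1 := h1 N ((le_max_left _ _).trans hN)
  have g2 := h2 N ((le_max_right _ _).trans hN)
  simp only [iter_add, smul_add, sum_add_distrib]
  refine (norm_add_le _ _).trans ?_
  linarith

theorem PP.smul {α : U →⋆ₐ[ℂ] U} {x : U} (c : ℂ) (hx : PP α x) : PP α (c • x) := by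
  intro ε hε
  obtain ⟨N1, h1⟩ := hx (ε / (‖c‖ + 1)) (by positivity)
  refine ⟨N1, fun N hN => ?_⟩
  have g1 := h1 N hN
  have e : ∑ n ∈ range N, mob n • (α^[n]) (c • x) = c • ∑ n ∈ range N, mob n • (α^[n]) x := by
    rw [smul_sum]
    refine sum_congr rfl fun n _ => ?_
    rw [iter_smul, smul_comm]
  rw [e, norm_smul]
  calc ‖c‖ * ‖∑ n ∈ range N, mob n • (α^[n]) x‖ ≤ ‖c‖ * (ε / (‖c‖ + 1) * N) := by gcongr
    _ = (‖c‖ / (‖c‖ + 1)) * (ε * N) := by ring
    _ ≤ 1 * (ε * N) := by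
      gcongr
      rw [div_le_one (by positivity)]
      linarith
    _ = _ := one_mul _

theorem PP.zero (α : U →⋆ₐ[ℂ] U) : PP α 0 := by
  intro ε hε
  refine ⟨0, fun N _ => ?_⟩
  have : ∀ n, (α^[n]) 0 = 0 := fun n => by
    have := iter_smul α n 0 0
    simpa using this
  simp only [this, smul_zero, sum_const_zero, norm_zero]
  positivity

theorem norm_sum_le' (α : U →⋆ₐ[ℂ] U) (N : ℕ) (x : U) :
    ‖∑ n ∈ range N, mob n • (α^[n]) x‖ ≤ N * ‖x‖ := by
  refine (norm_sum_le _ _).trans ?_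
  calc ∑ n ∈ range N, ‖mob n • (α^[n]) x‖ ≤ ∑ n ∈ range N, ‖x‖ := by
        refine sum_le_sum fun n _ => ?_
        rw [norm_smul]
        calc ‖mob n‖ * ‖(α^[n]) x‖ ≤ 1 * ‖x‖ := by
              gcongr
              · exact norm_mob_le n
              · exact norm_iter_le α n x
          _ = ‖x‖ := one_mul _
    _ = N * ‖x‖ := by simp

theorem PP.closed (α : U →⋆ₐ[ℂ] U) {S : Submodule ℂ U} (hS : ∀ x ∈ S, PP α x) :
    ∀ x ∈ S.topologicalClosure, PP α x := by
  intro x hx ε hε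
  have hx' : x ∈ closure (S : Set U) := hx
  obtain ⟨y, hy, hxy⟩ := Metric.mem_closure_iff.1 hx' (ε / 2) (by positivity)
  obtain ⟨N1, h1⟩ := hS y hy (ε / 2) (by positivity)
  refine ⟨N1, fun N hN => ?_⟩
  have g1 := h1 N hN
  have g2 := norm_sum_le' α N (x - y)
  have e : ∑ n ∈ range N, mob n • (α^[n]) x
      = ∑ n ∈ range N, mob n • (α^[n]) (x - y) + ∑ n ∈ range N, mob n • (α^[n]) y := by
    rw [← sum_add_distrib]
    refine sum_congr rfl fun n _ => ?_
    rw [iter_sub, smul_sub]; abel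
  rw [e]
  refine (norm_add_le _ _).trans ?_
  rw [dist_eq_norm] at hxy
  have : (N : ℝ) * ‖x - y‖ ≤ N * (ε / 2) := by gcongr
  linarith

theorem sum_blocks {E : Type} [AddCommMonoid E] (f : ℕ → E) (m J : ℕ) :
    ∑ n ∈ range (m * J), f n = ∑ r ∈ range m, ∑ j ∈ range J, f (m * j + r) := by
  rw [sum_comm]
  induction J with
  | zero => simp
  | succ J ih => rw [Nat.mul_succ, sum_range_add, ih, sum_range_succ]

/-- elements of class two -/
theorem PP.class_two (hAP : APCase) (hQ : ∀ A, QM A) (α : U →⋆ₐ[ℂ] U) (m : ℕ) (hm : 0 < m)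
    (w z : U) (hw : ‖w‖ ≤ 1) (hz : z ∈ unitary U) (a : ℝ) (h1 : (α^[m]) w = w * z)
    (h2 : (α^[m]) z = ee a • z) : PP α w := by
  intro ε hε
  -- iterates of `α^m`
  have hit : ∀ j : ℕ, (α^[m * j]) w = ee (a * ((j : ℝ) * (j - 1) / 2)) • (w * z ^ j) := by
    intro j
    induction j with
    | zero => simp [ee_zero]
    | succ j ih =>
      rw [Nat.mul_succ, Nat.add_comm, Function.iterate_add_apply, ih, iter_smul, iter_mul,
        iter_pow, h1, h2, smul_pow, mul_smul_comm, smul_smul, ← ee_nat_mul, ← ee_add, mul_assoc,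
        ← pow_succ']
      congr 2
      push_cast; ring
  have hAPr : ∀ r < m, ∃ J₀ : ℕ, ∀ J ≥ J₀, ∀ β : ℝ,
      ‖∑ j ∈ range J, mob (m * j + r) * ee (a * ((j : ℝ) * (j - 1) / 2) + β * j)‖ ≤ (ε / 2) * J :=
    fun r hr => hAP a m r hm hr (hQ _) (ε / 2) (by positivity)
  choose! J₀ hJ₀ using hAPr
  have hr : ∀ r < m, ∀ J ≥ J₀ r, ‖∑ j ∈ range J, mob (m * j + r) • (α^[m * j + r]) w‖
      ≤ (ε / 2) * J := by
    intro r hr J hJ
    have e : ∑ j ∈ range J, mob (m * j + r) • (α^[m * j + r]) w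
        = (α^[r]) w * ∑ j ∈ range J, (mob (m * j + r) * ee (a * ((j : ℝ) * (j - 1) / 2))) •
          ((α^[r]) z) ^ j := by
      rw [mul_sum]
      refine sum_congr rfl fun j _ => ?_
      rw [Nat.add_comm, Function.iterate_add_apply, hit, iter_smul, iter_mul, iter_pow, smul_smul,
        mul_smul_comm, Nat.add_comm]
    rw [e]
    refine (norm_mul_le _ _).trans ?_
    have h3 : ‖∑ j ∈ range J, (mob (m * j + r) * ee (a * ((j : ℝ) * (j - 1) / 2))) •
          ((α^[r]) z) ^ j‖ ≤ (ε / 2) * J := by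
      refine norm_poly_le _ (iter_unitary α r hz) J _ _ fun β => ?_
      have h4 := hJ₀ r hr J hJ β
      refine le_trans (le_of_eq ?_) h4
      congr 1
      refine sum_congr rfl fun j _ => ?_
      rw [ee_add]; ring
    have h5 : ‖(α^[r]) w‖ ≤ 1 := (norm_iter_le α r w).trans hw
    calc _ ≤ 1 * ((ε / 2) * J) := by gcongr
      _ = _ := one_mul _
  -- all blocks
  obtain ⟨J₁, hJ₁⟩ : ∃ J₁, ∀ r < m, J₀ r ≤ J₁ :=
    ⟨(range m).sup J₀, fun r hr => Finset.le_sup (f := J₀) (mem_range.2 hr)⟩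
  obtain ⟨N₁, hN₁⟩ := exists_nat_ge (2 * m / ε)
  refine ⟨max (m * (J₁ + 1)) N₁, fun N hN => ?_⟩
  set J := N / m with hJ
  have hJ1 : J₁ ≤ J := by
    rw [hJ, Nat.le_div_iff_mul_le hm, mul_comm]
    exact (Nat.mul_le_mul_left m (Nat.le_succ J₁)).trans ((le_max_left _ _).trans hN)
  have hNJ : N = m * J + N % m := (Nat.div_add_mod N m).symm
  have hmod : N % m < m := Nat.mod_lt _ hm
  rw [hNJ, sum_range_add, sum_blocks]
  refine (norm_add_le _ _).trans ?_
  have b1 : ‖∑ r ∈ range m, ∑ j ∈ range J, mob (m * j + r) • (α^[m * j + r]) w‖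
      ≤ m * ((ε / 2) * J) := by
    refine (norm_sum_le _ _).trans ?_
    calc _ ≤ ∑ r ∈ range m, (ε / 2) * (J : ℝ) := by
          refine sum_le_sum fun r hr' => ?_
          have hr'' := mem_range.1 hr'
          exact hr r hr'' J ((hJ₁ r hr'').trans hJ1)
      _ = _ := by simp
  have b2 : ‖∑ x ∈ range (N % m), mob (m * J + x) • (α^[m * J + x]) w‖ ≤ m := by
    refine (norm_sum_le _ _).trans ?_
    calc _ ≤ ∑ x ∈ range (N % m), (1 : ℝ) := by
          refine sum_le_sum fun x _ => ?_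
          rw [norm_smul]
          calc _ ≤ (1 : ℝ) * 1 := by
                gcongr
                · exact norm_mob_le _
                · exact (norm_iter_le α _ w).trans hw
            _ = 1 := one_mul _
      _ = ((N % m : ℕ) : ℝ) := by simp
      _ ≤ m := by exact_mod_cast hmod.le
  have b3 : (2 * m / ε : ℝ) ≤ N := hN₁.trans (by exact_mod_cast (le_max_right _ _).trans hN)
  rw [div_le_iff₀ hε] at b3
  have b4 : (m : ℝ) * J ≤ N := by
    have : m * J ≤ N := Nat.mul_div_le N m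
    exact_mod_cast this
  have b5 : ((m * J + N % m : ℕ) : ℝ) = N := by rw [← hNJ]
  rw [b5]
  nlinarith

end

end Pool.Agent.Helper188.NCM
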