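import Pool.Agent.Helper188.NCM.CStar

set_option autoImplicit false

open Finset Filter Topology

namespace Pool.Agent.Helper188.NCM

section

variable {U : Type} [CStarAlgebra U]

theorem smul_unitary {c : ℂ} (hc : ‖c‖ = 1) {x : U} (hx : x ∈ unitary U) : c • x ∈ unitary U := by
  have h1 : star c * c = 1 := by
    rw [Complex.star_def, ← Complex.normSq_eq_conj_mul_self, Complex.normSq_eq_norm_sq, hc]
    simp
  have h2 : c * star c = 1 := by rw [mul_comm]; exact h1
  refine Unitary.mem_iff.2 ⟨?_, ?_⟩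
  · rw [star_smul, smul_mul_smul_comm, h1, Unitary.star_mul_self_of_mem hx, one_smul]
  · rw [star_smul, smul_mul_smul_comm, h2, Unitary.mul_star_self_of_mem hx, one_smul]

theorem norm_unitary_le {x : U} (hx : x ∈ unitary U) : ‖x‖ ≤ 1 := by
  have h := norm_poly_le x hx 2 (fun j => if j = 1 then 1 else 0) 1 (fun β => by
    rw [sum_range_succ, sum_range_one]
    simp [norm_ee])
  rw [sum_range_succ, sum_range_one] at h
  simpa using h

/-- **Norm Möbius disjointness of class two maps.** -/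
theorem main_group (hAP : APCase) (hQ : ∀ A, QM A) (α : U →⋆ₐ[ℂ] U) {G : Type} [Group G]
    (π : G → U) (hu : ∀ g, π g ∈ unitary U)
    (hπ : ∀ g h, ∃ c : ℂ, ‖c‖ = 1 ∧ π (g * h) = c • (π g * π h))
    (hspan : (Submodule.span ℂ (Set.range π)).topologicalClosure = ⊤)
    (φ : G → G) (hα : ∀ g, ∃ c : ℂ, ‖c‖ = 1 ∧ α (π g) = c • π (φ g))
    (m : ℕ) (hm : 0 < m) (hφ : ∀ g, φ^[m] (g⁻¹ * φ^[m] g) = g⁻¹ * φ^[m] g) :
    ∀ x, PP α x := by
  have hit : ∀ (n : ℕ) (g : G), ∃ c : ℂ, ‖c‖ = 1 ∧ (α^[n]) (π g) = c • π (φ^[n] g) := by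
    intro n
    induction n with
    | zero => intro g; exact ⟨1, by simp, by simp⟩
    | succ n ih =>
      intro g
      obtain ⟨c, hc, h1⟩ := hα g
      obtain ⟨c', hc', h2⟩ := ih (φ g)
      refine ⟨c * c', by rw [norm_mul, hc, hc', one_mul], ?_⟩
      rw [Function.iterate_succ_apply, Function.iterate_succ_apply, h1, iter_smul, h2, smul_smul]
  have hgen : ∀ g, PP α (π g) := by
    intro g
    obtain ⟨c0, hc0, h0⟩ := hit m g
    obtain ⟨c1, hc1, h1⟩ := hπ g (g⁻¹ * φ^[m] g)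
    obtain ⟨c2, hc2, h2⟩ := hit m (g⁻¹ * φ^[m] g)
    obtain ⟨a, ha⟩ := exists_ee hc2
    rw [mul_inv_cancel_left] at h1
    rw [hφ g] at h2
    refine PP.class_two hAP hQ α m hm (π g) ((c0 * c1) • π (g⁻¹ * φ^[m] g))
      (norm_unitary_le (hu g)) (smul_unitary (by rw [norm_mul, hc0, hc1, one_mul]) (hu _)) a ?_ ?_
    · rw [h0, h1, smul_smul, mul_smul_comm]
    · rw [iter_smul, h2, ha, smul_comm]
  have hS : ∀ x ∈ Submodule.span ℂ (Set.range π), PP α x := by
    intro x hx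
    induction hx using Submodule.span_induction with
    | mem x hx => obtain ⟨g, rfl⟩ := hx; exact hgen g
    | zero => exact PP.zero α
    | add x y _ _ hx hy => exact hx.add hy
    | smul c x _ hx => exact hx.smul c
  intro x
  refine PP.closed α hS x ?_
  rw [hspan]; trivial

/-- the final form of the conclusion -/
theorem PP.tendsto {α : U →⋆ₐ[ℂ] U} {x : U} (h : PP α x) :
    Tendsto (fun N : ℕ => (1 / (N : ℝ)) * ‖∑ n ∈ Icc 1 N, mob n • (α^[n]) x‖) atTop (𝓝 0) := by
  rw [Metric.tendsto_atTop]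
  intro ε hε
  obtain ⟨N0, h0⟩ := h (ε / 4) (by positivity)
  refine ⟨max N0 1, fun N hN => ?_⟩
  have hN1 : 1 ≤ N := (le_max_right _ _).trans hN
  have h1 := h0 (N + 1) (by have := (le_max_left N0 1).trans hN; omega)
  have e : ∑ n ∈ range (N + 1), mob n • (α^[n]) x = ∑ n ∈ Icc 1 N, mob n • (α^[n]) x := by
    rw [range_eq_Ico, sum_eq_sum_Ico_succ_bot (Nat.succ_pos N)]
    have : mob 0 = 0 := by simp [mob]
    rw [this, zero_smul, zero_add]
    rfl
  rw [e] at h1
  have hNr : (1 : ℝ) ≤ N := by exact_mod_cast hN1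
  rw [Real.dist_0_eq_abs, abs_of_nonneg (by positivity), one_div, inv_mul_lt_iff₀ (by positivity)]
  push_cast at h1
  nlinarith

end

end Pool.Agent.Helper188.NCM
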