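import Pool.Agent.Helper188.NCM.CStar
import Pool.Agent.H446R3.SK.Mob

set_option autoImplicit false

open Finset Filter Topology

namespace Pool.Agent.Helper188.NCM

theorem qm_zero : QM 0 := by
  intro ε hε
  obtain ⟨N0, h⟩ := Pool.Agent.H446R3.SK.dav_eps ε hε
  refine ⟨N0, fun N hN B => ?_⟩
  refine le_trans (le_of_eq ?_) (h N hN B)
  congr 1
  refine sum_congr rfl fun n _ => ?_
  rw [mob, ee, Pool.Agent.H446R3.SK.mt]
  congr 2
  push_cast; ring

theorem star_ee (x : ℝ) : star (ee x) = ee (-x) := by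
  rw [ee, ee, Complex.star_def, ← Complex.exp_conj]
  congr 1
  simp only [map_mul, Complex.conj_ofReal, Complex.conj_I, map_ofNat]
  push_cast; ring

theorem qm_irr (hK : KBSZ) (hW : Weyl) (A : ℝ) (hA : Irrational A) : QM A := by
  refine hK ℝ (fun B n => ee (A * (n : ℝ) ^ 2 + B * n)) (fun B n => (norm_ee _).le) ?_
  intro p q hp hq hpq ε hε
  have hpq' : (p : ℤ) ^ 2 - (q : ℤ) ^ 2 ≠ 0 := by
    intro h
    apply hpq
    have h1 : (p : ℤ) ^ 2 = (q : ℤ) ^ 2 := by linarith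
    have h2 : (p : ℤ) = q := by
      rcases sq_eq_sq_iff_eq_or_eq_neg.1 h1 with h3 | h3
      · exact h3
      · have := hp.pos; have := hq.pos; omega
    exact_mod_cast h2
  obtain ⟨N0, h⟩ := hW (A * (((p : ℤ) ^ 2 - (q : ℤ) ^ 2 : ℤ) : ℝ)) (hA.mul_intCast hpq') ε hε
  refine ⟨N0, fun N hN B => ?_⟩
  refine le_trans (le_of_eq ?_) (h N hN (B * ((p : ℝ) - q)))
  congr 1
  refine sum_congr rfl fun n _ => ?_
  rw [star_ee, ← ee_add]
  congr 1
  push_cast; ring

theorem qm_all (hK : KBSZ) (hW : Weyl) (hR : RatCase) (A : ℝ) : QM A := by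
  by_cases hA : Irrational A
  · exact qm_irr hK hW A hA
  · rw [Irrational, not_not] at hA
    obtain ⟨r, rfl⟩ := hA
    have := hR qm_zero r.num r.den r.den_pos
    rwa [← Rat.cast_def] at this

end Pool.Agent.Helper188.NCM
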