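import Pool.Agent.Helper188.NCM.PDU
import Pool.Agent.Helper188.NCM.Group
import Pool.Agent.Helper188.NCM.QMAll

set_option autoImplicit false

open Finset Filter Topology

namespace Pool.Agent.Helper188.NCM

section

variable {U : Type} [CStarAlgebra U]

/-- powers of an endomorphism -/
def pw (α : U →⋆ₐ[ℂ] U) : ℕ → (U →⋆ₐ[ℂ] U)
  | 0 => StarAlgHom.id ℂ U
  | n + 1 => α.comp (pw α n)

theorem pw_apply (α : U →⋆ₐ[ℂ] U) (n : ℕ) (x : U) : pw α n x = (α^[n]) x := by
  induction n with
  | zero => rfl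
  | succ n ih => rw [Function.iterate_succ_apply', ← ih]; rfl

theorem iter_star (α : U →⋆ₐ[ℂ] U) (n : ℕ) (x : U) : (α^[n]) (star x) = star ((α^[n]) x) := by
  rw [← pw_apply, ← pw_apply, map_star]

/-- the autocorrelations -/
def gg (β : U →⋆ₐ[ℂ] U) (x : U) (k : ℤ) : U :=
  if 0 ≤ k then star x * (β^[k.toNat]) x else star (star x * (β^[(-k).toNat]) x)

theorem gg_eq (β : U →⋆ₐ[ℂ] U) (x : U)
    (hx : ∀ j : ℕ, β (star x * (β^[j]) x) = star x * (β^[j]) x) (m n : ℕ) :
    star ((β^[m]) x) * (β^[n]) x = gg β x ((n : ℤ) - m) := by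
  have hfix : ∀ m j : ℕ, (β^[m]) (star x * (β^[j]) x) = star x * (β^[j]) x := by
    intro m j
    induction m with
    | zero => rfl
    | succ m ih => rw [Function.iterate_succ_apply', ih, hx]
  have hge : ∀ m d : ℕ, star ((β^[m]) x) * (β^[m + d]) x = star x * (β^[d]) x := by
    intro m d
    rw [Function.iterate_add_apply, ← iter_star, ← iter_mul, hfix]
  rcases le_or_gt m n with h | h
  · obtain ⟨d, rfl⟩ := Nat.exists_eq_add_of_le h
    have hd : (((m + d : ℕ) : ℤ) - m).toNat = d := by omega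
    rw [gg, if_pos (by omega), hd, hge]
  · obtain ⟨d, rfl⟩ := Nat.exists_eq_add_of_lt h
    have hd : (-((n : ℤ) - ((n + d + 1 : ℕ) : ℤ))).toNat = d + 1 := by omega
    rw [gg, if_neg (by omega), hd, ← hge n (d + 1), star_mul, star_star, add_assoc]

/-- **The spectral inequality.** -/
theorem spec (β : U →⋆ₐ[ℂ] U) (x : U)
    (hx : ∀ j : ℕ, β (star x * (β^[j]) x) = star x * (β^[j]) x) (N : ℕ) (c : ℕ → ℂ) (C : ℝ)
    (hC : 0 ≤ C) (hβ : ∀ b : ℝ, ‖∑ n ∈ range N, c n * ee (b * n)‖ ≤ C) :
    ‖∑ n ∈ range N, c n • (β^[n]) x‖ ≤ C * ‖x‖ := by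
  have e : ∀ (M : ℕ) (z : ℕ → ℂ), ∑ n ∈ range M, ∑ m ∈ range M, (z n * star (z m)) •
      gg β x ((n : ℤ) - m) = star (∑ n ∈ range M, z n • (β^[n]) x) * ∑ n ∈ range M, z n • (β^[n]) x := by
    intro M z
    rw [star_sum, sum_mul_sum, sum_comm]
    refine sum_congr rfl fun m _ => sum_congr rfl fun n _ => ?_
    rw [← gg_eq β x hx, star_smul, smul_mul_smul_comm, mul_comm]
  have h := pdu (gg β x) (fun M z => ⟨_, e M z⟩) N c C hβ
  rw [e, CStarRing.norm_star_mul_self] at h
  have h0 : ‖gg β x 0‖ = ‖x‖ * ‖x‖ := by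
    rw [gg, if_pos le_rfl]
    simp only [Int.toNat_zero, Function.iterate_zero, id_eq]
    rw [CStarRing.norm_star_mul_self]
  rw [h0] at h
  have h1 : ‖∑ n ∈ range N, c n • (β^[n]) x‖ ^ 2 ≤ (C * ‖x‖) ^ 2 := by
    nlinarith
  exact le_of_sq_le_sq h1 (by positivity)

/-- spectral domination along multiples of `m` gives disjointness -/
theorem PP.of_spec (hAP : APCase) (α : U →⋆ₐ[ℂ] U) (m : ℕ) (hm : 0 < m) (w : U)
    (hs : ∀ (N : ℕ) (c : ℕ → ℂ) (C : ℝ), 0 ≤ C →
      (∀ b : ℝ, ‖∑ n ∈ range N, c n * ee (b * n)‖ ≤ C) →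
      ‖∑ n ∈ range N, c n • (α^[m * n]) w‖ ≤ C * ‖w‖) : PP α w := by
  intro ε hε
  set K : ℝ := ‖w‖ + 1 with hK
  have hK0 : 0 < K := by positivity
  have hAPr : ∀ r < m, ∃ J₀ : ℕ, ∀ J ≥ J₀, ∀ β : ℝ,
      ‖∑ j ∈ range J, mob (m * j + r) * ee (0 * ((j : ℝ) * (j - 1) / 2) + β * j)‖
        ≤ (ε / (2 * K)) * J :=
    fun r hr => hAP 0 m r hm hr (by rw [zero_div]; exact qm_zero) (ε / (2 * K)) (by positivity)
  choose! J₀ hJ₀ using hAPr
  have hr : ∀ r < m, ∀ J ≥ J₀ r, ‖∑ j ∈ range J, mob (m * j + r) • (α^[m * j + r]) w‖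
      ≤ (ε / 2) * J := by
    intro r hr J hJ
    have e : ∑ j ∈ range J, mob (m * j + r) • (α^[m * j + r]) w
        = (α^[r]) (∑ j ∈ range J, mob (m * j + r) • (α^[m * j]) w) := by
      rw [← pw_apply α r, map_sum]
      refine sum_congr rfl fun j _ => ?_
      rw [map_smul, pw_apply, Nat.add_comm, Function.iterate_add_apply]
    rw [e]
    refine (norm_iter_le α r _).trans ?_
    refine (hs J (fun j => mob (m * j + r)) (ε / (2 * K) * J) (by positivity) fun b => ?_).trans ?_
    · have h4 := hJ₀ r hr J hJ b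
      simpa using h4
    · calc ε / (2 * K) * J * ‖w‖ ≤ ε / (2 * K) * J * K := by gcongr; linarith
        _ = ε / 2 * J := by field_simp
  obtain ⟨J₁, hJ₁⟩ : ∃ J₁, ∀ r < m, J₀ r ≤ J₁ :=
    ⟨(range m).sup J₀, fun r hr => Finset.le_sup (f := J₀) (mem_range.2 hr)⟩
  obtain ⟨N₁, hN₁⟩ := exists_nat_ge (2 * (m * K) / ε)
  refine ⟨max (m * (J₁ + 1)) N₁, fun N hN => ?_⟩
  set J := N / m with hJ
  have hJ1 : J₁ ≤ J := by
    rw [hJ, Nat.le_div_iff_mul_le hm, mul_comm]
    exact (Nat.mul_le_mul_left m (Nat.le_succ J₁)).trans ((le_max_left _ _).trans hN)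
  have hNJ : N = m * J + N % m := (Nat.div_add_mod N m).symm
  have hmod : N % m < m := Nat.mod_lt _ hm
  rw [hNJ, sum_range_add, sum_blocks]
  refine (norm_add_le _ _).trans ?_
  have b1 : ‖∑ r ∈ range m, ∑ j ∈ range J, mob (m * j + r) • (α^[m * j + r]) w‖
      ≤ m * ((ε / 2) * J) := by
    refine (norm_sum_le _ _).trans ?_
    calc _ ≤ ∑ r ∈ range m, (ε / 2) * (J : ℝ) := by
          refine sum_le_sum fun r hr' => ?_
          have hr'' := mem_range.1 hr'
          exact hr r hr'' J ((hJ₁ r hr'').trans hJ1)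
      _ = _ := by simp
  have b2 : ‖∑ x ∈ range (N % m), mob (m * J + x) • (α^[m * J + x]) w‖ ≤ m * K := by
    refine (norm_sum_le _ _).trans ?_
    calc _ ≤ ∑ x ∈ range (N % m), K := by
          refine sum_le_sum fun x _ => ?_
          rw [norm_smul]
          calc _ ≤ (1 : ℝ) * ‖w‖ := by
                gcongr
                · exact norm_mob_le _
                · exact norm_iter_le α _ w
            _ ≤ K := by linarith
      _ = ((N % m : ℕ) : ℝ) * K := by simp
      _ ≤ m * K := by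
        gcongr
  have b3 : (2 * (m * K) / ε : ℝ) ≤ N := hN₁.trans (by exact_mod_cast (le_max_right _ _).trans hN)
  rw [div_le_iff₀ hε] at b3
  have b4 : (m : ℝ) * J ≤ N := by
    have : m * J ≤ N := Nat.mul_div_le N m
    exact_mod_cast this
  have b5 : ((m * J + N % m : ℕ) : ℝ) = N := by rw [← hNJ]
  rw [b5]
  nlinarith

theorem pw_iter (α : U →⋆ₐ[ℂ] U) (m j : ℕ) (x : U) : ((pw α m)^[j]) x = (α^[m * j]) x := by
  have : (⇑(pw α m)) = (⇑α)^[m] := by
    funext y; exact pw_apply α m y
  rw [this, ← Function.iterate_mul]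

/-- **The criterion.** -/
theorem main_crit (hAP : APCase) (α : U →⋆ₐ[ℂ] U) (m : ℕ) (hm : 0 < m)
    (hspan : (Submodule.span ℂ {x : U | ∀ j : ℕ,
      (α^[m]) (star x * (α^[m * j]) x) = star x * (α^[m * j]) x}).topologicalClosure = ⊤) :
    ∀ x, PP α x := by
  have hS : ∀ y ∈ Submodule.span ℂ {x : U | ∀ j : ℕ,
      (α^[m]) (star x * (α^[m * j]) x) = star x * (α^[m * j]) x}, PP α y := by
    intro y hy
    induction hy using Submodule.span_induction with
    | mem y hy =>
      refine PP.of_spec hAP α m hm y fun N c C hC hb => ?_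
      have := spec (pw α m) y (fun j => by rw [pw_iter, pw_apply]; exact hy j) N c C hC hb
      simpa only [pw_iter] using this
    | zero => exact PP.zero α
    | add x y _ _ hx hy => exact hx.add hy
    | smul c x _ hx => exact hx.smul c
  intro x
  refine PP.closed α hS x ?_
  rw [hspan]; trivial

/-- normalizers have autocorrelations in the relative commutant -/
theorem normalizer_comm (D : StarSubalgebra ℂ U) (hD : ∀ a ∈ D, ∀ b ∈ D, a * b = b * a)
    (γ : U →⋆ₐ[ℂ] U) (hγ : ∀ d ∈ D, γ d = d) (x : U)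
    (hx : ∀ d ∈ D, x * d * star x ∈ D ∧ star x * d * x ∈ D) :
    ∀ d ∈ D, star x * γ x * d = d * (star x * γ x) := by
  have hh : star x * x ∈ D := by
    have := (hx 1 D.one_mem).2
    rwa [mul_one] at this
  have hγh : γ (star x) * γ x = star x * x := by rw [← map_mul, hγ _ hh]
  have h1 : ∀ d ∈ D, star x * γ x * d * (star x * x) = star x * x * d * (star x * γ x) := by
    intro d hd
    calc star x * γ x * d * (star x * x)
        = star x * (γ x * γ d * γ (star x)) * γ x := by
          rw [hγ d hd, ← hγh]; simp only [mul_assoc]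
      _ = star x * (x * d * star x) * γ x := by
          rw [← map_mul, ← map_mul, hγ _ (hx d hd).1]
      _ = _ := by simp only [mul_assoc]
  have h2 : star x * γ x * (star x * x) = star x * x * (star x * γ x) := by
    have := h1 1 D.one_mem
    rwa [mul_one, mul_one] at this
  intro d hd
  set y : U := star x * γ x with hy
  set h : U := star x * x with hh'
  set z : U := y * d - d * y with hz
  have hzh : z * h = 0 := by
    rw [hz, sub_mul, h1 d hd, mul_assoc d y h, h2, ← mul_assoc d h y, hD d hd h hh, sub_self]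
  have h3 : ∀ e ∈ D, z * e * star (γ x) = 0 := by
    intro e he
    have hs : star e ∈ D := star_mem he
    have : z * e * star (γ x) * star (z * e * star (γ x)) = 0 := by
      calc z * e * star (γ x) * star (z * e * star (γ x))
          = z * e * (star (γ x) * γ x) * star e * star z := by
            simp only [star_mul, star_star, mul_assoc]
        _ = z * (e * h) * star e * star z := by
            rw [← map_star, hγh]; simp only [mul_assoc]
        _ = z * h * (e * star e * star z) := by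
            rw [hD e he h hh]; simp only [mul_assoc]
        _ = 0 := by rw [hzh, zero_mul]
    exact (CStarRing.mul_star_self_eq_zero_iff _).1 this
  have h4 : z * star z = 0 := by
    have e1 : star z = star d * star (γ x) * x - 1 * star (γ x) * x * star d := by
      rw [hz, hy]
      simp only [star_sub, star_mul, star_star, one_mul, mul_assoc]
    rw [e1, mul_sub]
    have e2 : z * (star d * star (γ x) * x) = 0 := by
      rw [← mul_assoc, ← mul_assoc, h3 _ (star_mem hd), zero_mul]
    have e3 : z * (1 * star (γ x) * x * star d) = 0 := by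
      have := h3 1 D.one_mem
      rw [← mul_assoc, ← mul_assoc, ← mul_assoc, this, zero_mul, zero_mul]
    rw [e2, e3, sub_self]
  have h5 : z = 0 := (CStarRing.mul_star_self_eq_zero_iff _).1 h4
  exact sub_eq_zero.1 h5

/-- **Cartan subalgebras.** -/
theorem main_cartan (hAP : APCase) (α : U →⋆ₐ[ℂ] U) (D : StarSubalgebra ℂ U) (m : ℕ) (hm : 0 < m)
    (hD : ∀ a ∈ D, ∀ b ∈ D, a * b = b * a)
    (hfix : ∀ y : U, (∀ d ∈ D, y * d = d * y) → (α^[m]) y = y)
    (hspan : (Submodule.span ℂ {x : U | ∀ d ∈ D, x * d * star x ∈ D ∧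
      star x * d * x ∈ D}).topologicalClosure = ⊤) :
    ∀ x, PP α x := by
  have hD' : ∀ d ∈ D, (α^[m]) d = d := fun d hd => hfix d fun e he => hD d hd e he
  have hDj : ∀ j : ℕ, ∀ d ∈ D, (α^[m * j]) d = d := by
    intro j d hd
    induction j with
    | zero => simp
    | succ j ih => rw [Nat.mul_succ, Nat.add_comm, Function.iterate_add_apply, ih, hD' d hd]
  refine main_crit hAP α m hm ?_
  rw [eq_top_iff, ← hspan]
  refine closure_mono (Submodule.span_mono ?_)
  intro x hx j
  refine hfix _ ?_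
  have := normalizer_comm D hD (pw α (m * j)) (fun d hd => by rw [pw_apply]; exact hDj j d hd) x hx
  simpa only [pw_apply] using this

/-- **Crossed products.** -/
theorem main_crossed (hAP : APCase) (α : U →⋆ₐ[ℂ] U) (D : StarSubalgebra ℂ U) (m : ℕ) (hm : 0 < m)
    (hfix : ∀ d ∈ D, (α^[m]) d = d)
    (hfix' : ∀ y : U, (∀ d ∈ D, y * d = d * y) → (α^[m]) y = y)
    (hspan : (Submodule.span ℂ {x : U | ∃ d ∈ D, ∃ u : unitary U,
      (∀ e ∈ D, (u : U) * e * star (u : U) ∈ D ∧ star (u : U) * e * (u : U) ∈ D) ∧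
      x = d * (u : U)}).topologicalClosure = ⊤) :
    ∀ x, PP α x := by
  have hDj : ∀ j : ℕ, ∀ d ∈ D, (α^[m * j]) d = d := by
    intro j d hd
    induction j with
    | zero => simp
    | succ j ih => rw [Nat.mul_succ, Nat.add_comm, Function.iterate_add_apply, ih, hfix d hd]
  refine main_crit hAP α m hm ?_
  rw [eq_top_iff, ← hspan]
  refine closure_mono (Submodule.span_mono ?_)
  rintro x ⟨d, hd, u, hu, rfl⟩ j
  have huu : (u : U) * star (u : U) = 1 := Unitary.mul_star_self_of_mem u.2
  have huu' : star (u : U) * (u : U) = 1 := Unitary.star_mul_self_of_mem u.2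
  have e1 : star (d * (u : U)) * (α^[m * j]) (d * (u : U))
      = (star (u : U) * (star d * d) * (u : U)) * (star (u : U) * (α^[m * j]) (u : U)) := by
    rw [iter_mul, hDj j d hd, star_mul]
    calc star (u : U) * star d * (d * (α^[m * j]) (u : U))
        = star (u : U) * (star d * d) * 1 * (α^[m * j]) (u : U) := by
          rw [mul_one]; simp only [mul_assoc]
      _ = _ := by rw [← huu]; simp only [mul_assoc]
  have h1 : star (u : U) * (star d * d) * (u : U) ∈ D :=
    (hu _ (mul_mem (star_mem hd) hd)).2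
  have h2 : ∀ e ∈ D, star (u : U) * (α^[m * j]) (u : U) * e
      = e * (star (u : U) * (α^[m * j]) (u : U)) := by
    intro e he
    calc star (u : U) * (α^[m * j]) (u : U) * e
        = star (u : U) * (α^[m * j]) ((u : U) * e) := by
          rw [iter_mul, hDj j e he, mul_assoc]
      _ = star (u : U) * (α^[m * j]) ((u : U) * e * star (u : U) * (u : U)) := by
          rw [mul_assoc ((u : U) * e), huu', mul_one]
      _ = star (u : U) * ((u : U) * e * star (u : U) * (α^[m * j]) (u : U)) := by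
          rw [iter_mul, hDj j _ (hu e he).1]
      _ = (star (u : U) * (u : U)) * e * (star (u : U) * (α^[m * j]) (u : U)) := by
          simp only [mul_assoc]
      _ = _ := by rw [huu', one_mul]
  rw [e1, iter_mul, hfix _ h1, hfix' _ h2]

end

end Pool.Agent.Helper188.NCM
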