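import Pool.Agent.Helper188.NCM.Free

set_option autoImplicit false

open Finset Filter Topology

namespace Pool.Agent.Helper188.NCM

/-- `(f * ξ)(x) = ∑_g f(g) ξ(g⁻¹ x)` -/
def conv {G : Type} [Group G] (f ξ : G →₀ ℂ) (x : G) : ℂ := ∑ g ∈ f.support, f g * ξ (g⁻¹ * x)

/-- `‖f * ξ‖₂ ≤ C ‖ξ‖₂` for all finitely supported `ξ` -/
def ConvBound {G : Type} [Group G] (f : G →₀ ℂ) (C : ℝ) : Prop :=
  ∀ (ξ : G →₀ ℂ) (X : Finset G),
    ∑ x ∈ X, ‖conv f ξ x‖ ^ 2 ≤ C ^ 2 * ∑ x ∈ ξ.support, ‖ξ x‖ ^ 2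

/-- finitely supported vectors -/
noncomputable def emb {G : Type} (ξ : G →₀ ℂ) : L2 G := ⟨fun x => ξ x, by
    refine memℓp_gen ?_
    refine summable_of_ne_finset_zero (s := ξ.support) ?_
    intro x hx
    rw [Finsupp.notMem_support_iff.1 hx]
    norm_num⟩

theorem norm_emb {G : Type} (ξ : G →₀ ℂ) : ‖emb ξ‖ ^ 2 = ∑ x ∈ ξ.support, ‖ξ x‖ ^ 2 := by
  have h := lp.norm_rpow_eq_tsum (p := 2) (by norm_num) (emb ξ)
  have h2 : (2 : ENNReal).toReal = ((2 : ℕ) : ℝ) := by norm_num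
  rw [h2] at h
  simp only [Real.rpow_natCast] at h
  rw [h, tsum_eq_sum (s := ξ.support)]
  · rfl
  · intro x hx
    have : (emb ξ) x = ξ x := rfl
    rw [this, Finsupp.notMem_support_iff.1 hx]
    simp

theorem convBound_lam {S : Type} (f : FreeGroup S →₀ ℂ) :
    ConvBound f ‖∑ g ∈ f.support, f g •
      (Pool.CS.lam g : L2 (FreeGroup S) →L[ℂ] L2 (FreeGroup S))‖ := by
  classical
  intro ξ X
  set T : L2 (FreeGroup S) →L[ℂ] L2 (FreeGroup S) := ∑ g ∈ f.support, f g • Pool.CS.lam g with hT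
  have h1 : ∀ x, conv f ξ x = (T (emb ξ)) x := by
    intro x
    rw [hT, Pool.CS.N_haag.apply_sum]
    rfl
  have h2 : ∑ x ∈ X, ‖conv f ξ x‖ ^ 2 ≤ ‖T (emb ξ)‖ ^ 2 := by
    have h := lp.sum_rpow_le_norm_rpow (p := 2) (by norm_num) (T (emb ξ)) X
    have h2 : (2 : ENNReal).toReal = ((2 : ℕ) : ℝ) := by norm_num
    rw [h2] at h
    simp only [Real.rpow_natCast] at h
    simpa only [h1] using h
  refine h2.trans ?_
  rw [← norm_emb, ← mul_pow]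
  exact pow_le_pow_left₀ (norm_nonneg _) (T.le_opNorm _) 2

end Pool.Agent.Helper188.NCM
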