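import Pool.Agent.Helper188.NCM.Stmts2
import Pool.Agent.Helper188.NCM.Group
import Pool.Agent.Helper188.NCM.QMAll

set_option autoImplicit false

open Finset Filter Topology

namespace Pool.Agent.Helper188.NCM

section

variable {U H : Type} [CStarAlgebra U] [NormedAddCommGroup H] [InnerProductSpace ℂ H]

theorem gram (s : H →ₗ[ℂ] U) (hs : ∀ η ξ : H, star (s η) * s ξ = (inner ℂ η ξ : ℂ) • (1 : U))
    (l : List H) (f g : H → H) :
    star (((l.map f).map s).prod) * ((l.map g).map s).prod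
      = (l.map fun ξ => (inner ℂ (f ξ) (g ξ) : ℂ)).prod • (1 : U) := by
  induction l with
  | nil => simp
  | cons ξ l ih =>
    simp only [List.map_cons, List.prod_cons]
    rw [star_mul, mul_assoc, ← mul_assoc (star (s (f ξ))), hs, smul_mul_assoc, one_mul,
      mul_smul_comm, ih, smul_smul]

/-- the autocorrelation sequence of an isometry -/
noncomputable def gi (V : H → H) (ξ : H) (k : ℤ) : ℂ :=
  if 0 ≤ k then inner ℂ ξ (V^[k.toNat] ξ) else inner ℂ (V^[(-k).toNat] ξ) ξ

theorem gi_eq (V : H → H) (hV : ∀ η ξ, (inner ℂ (V η) (V ξ) : ℂ) = inner ℂ η ξ) (ξ : H) (m n : ℕ) :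
    (inner ℂ (V^[m] ξ) (V^[n] ξ) : ℂ) = gi V ξ ((n : ℤ) - m) := by
  have hit : ∀ (k : ℕ) (x y : H), (inner ℂ (V^[k] x) (V^[k] y) : ℂ) = inner ℂ x y := by
    intro k
    induction k with
    | zero => intro x y; rfl
    | succ k ih =>
      intro x y
      rw [Function.iterate_succ_apply, Function.iterate_succ_apply, ih, hV]
  rcases le_or_gt m n with h | h
  · obtain ⟨d, rfl⟩ := Nat.exists_eq_add_of_le h
    have hd : (((m + d : ℕ) : ℤ) - m).toNat = d := by omega
    rw [gi, if_pos (by omega), hd, Function.iterate_add_apply, hit]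
  · obtain ⟨d, rfl⟩ := Nat.exists_eq_add_of_lt h
    have hd : (-((n : ℤ) - ((n + d + 1 : ℕ) : ℤ))).toNat = d + 1 := by omega
    rw [gi, if_neg (by omega), hd, add_assoc, Function.iterate_add_apply, hit]

theorem al_list (α : U →⋆ₐ[ℂ] U) (s : H →ₗ[ℂ] U) (V : H → H) (hα : ∀ ξ, α (s ξ) = s (V ξ))
    (l : List H) : α ((l.map s).prod) = ((l.map V).map s).prod := by
  induction l with
  | nil => simp
  | cons ξ l ih => simp only [List.map_cons, List.prod_cons, map_mul, ih, hα]

theorem iter_word (α : U →⋆ₐ[ℂ] U) (s : H →ₗ[ℂ] U) (V : H → H) (hα : ∀ ξ, α (s ξ) = s (V ξ))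
    (n : ℕ) (p : List H × List H) :
    (α^[n]) (cword s p)
      = ((p.1.map V^[n]).map s).prod * star (((p.2.map V^[n]).map s).prod) := by
  induction n with
  | zero => simp [cword]
  | succ n ih =>
    rw [Function.iterate_succ_apply', ih, map_mul, map_star, al_list α s V hα, al_list α s V hα,
      List.map_map (g := V) (f := V^[n]), List.map_map (g := V) (f := V^[n]),
      ← Function.iterate_succ']

theorem PP.word (hPD : TaskPD) (hHS : TaskHS) [Nontrivial U] (s : H →ₗ[ℂ] U)
    (hs : ∀ η ξ : H, star (s η) * s ξ = (inner ℂ η ξ : ℂ) • (1 : U))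
    (α : U →⋆ₐ[ℂ] U) (V : H → H) (hV : ∀ η ξ, (inner ℂ (V η) (V ξ) : ℂ) = inner ℂ η ξ)
    (hα : ∀ ξ, α (s ξ) = s (V ξ)) (p : List H × List H) (γ : ℝ) :
    ∀ ε : ℝ, 0 < ε → ∃ N₀ : ℕ, ∀ N ≥ N₀,
      ‖∑ n ∈ range N, (mob n * ee (γ * n)) • (α^[n]) (cword s p)‖ ≤ ε * N := by
  set g : ℤ → ℂ := fun k =>
    (p.2.map fun η => star (gi V η k)).prod * (p.1.map fun ξ => gi V ξ k).prod with hg
  have key : ∀ (N : ℕ) (c : ℕ → ℂ), ‖∑ n ∈ range N, c n • (α^[n]) (cword s p)‖ ^ 2 ≤
      (∑ n ∈ range N, ∑ m ∈ range N, c n * star (c m) * g ((n : ℤ) - m)).re ∧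
      (∑ n ∈ range N, ∑ m ∈ range N, c n * star (c m) * g ((n : ℤ) - m)).im = 0 := by
    intro N c
    have h := hHS U (fun n => ((p.1.map V^[n]).map s).prod) (fun n => ((p.2.map V^[n]).map s).prod)
      (fun m n => (p.1.map fun ξ => (inner ℂ (V^[m] ξ) (V^[n] ξ) : ℂ)).prod)
      (fun m n => (p.2.map fun ξ => (inner ℂ (V^[m] ξ) (V^[n] ξ) : ℂ)).prod)
      (fun m n => gram s hs p.1 _ _) (fun m n => gram s hs p.2 _ _) N c
    have e : ∀ n m : ℕ, (p.2.map fun ξ => (inner ℂ (V^[n] ξ) (V^[m] ξ) : ℂ)).prod *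
        (p.1.map fun ξ => (inner ℂ (V^[m] ξ) (V^[n] ξ) : ℂ)).prod = g ((n : ℤ) - m) := by
      intro n m
      rw [hg]
      congr 2
      · refine List.map_congr_left fun ξ _ => ?_
        rw [← gi_eq V hV ξ m n, ← inner_conj_symm (V^[n] ξ) (V^[m] ξ)]
        rfl
      · exact List.map_congr_left fun ξ _ => gi_eq V hV ξ m n
    simp only [e] at h
    simp only [iter_word α s V hα]
    exact h
  have hpsd : ∀ (M : ℕ) (x : ℕ → ℂ),
      0 ≤ (∑ n ∈ range M, ∑ m ∈ range M, x n * star (x m) * g ((n : ℤ) - m)).re ∧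
      (∑ n ∈ range M, ∑ m ∈ range M, x n * star (x m) * g ((n : ℤ) - m)).im = 0 :=
    fun M x => ⟨(sq_nonneg _).trans (key M x).1, (key M x).2⟩
  have hG : 0 ≤ (g 0).re := by
    have := (hpsd 1 (fun _ => 1)).1
    simpa using this
  intro ε hε
  obtain ⟨N0, h0⟩ := qm_zero (ε / ((g 0).re + 1)) (by positivity)
  refine ⟨N0, fun N hN => ?_⟩
  have h1 := hPD g hpsd N (fun n => mob n * ee (γ * n)) (ε / ((g 0).re + 1) * N) (by positivity)
    (fun β => by
      refine le_trans (le_of_eq ?_) (h0 N hN (γ + β))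
      congr 1
      refine sum_congr rfl fun n _ => ?_
      rw [mul_assoc, ← ee_add]
      congr 2
      ring)
  have h2 := (key N (fun n => mob n * ee (γ * n))).1
  have h3 : (ε / ((g 0).re + 1) * N) ^ 2 * (g 0).re ≤ (ε * N) ^ 2 := by
    rw [div_mul_eq_mul_div, div_pow, div_mul_eq_mul_div, div_le_iff₀ (by positivity)]
    exact mul_le_mul_of_nonneg_left (by nlinarith) (sq_nonneg _)
  exact le_of_sq_le_sq (h2.trans (h1.trans h3)) (by positivity)

theorem star_prod_mul (s : H →ₗ[ℂ] U)
    (hs : ∀ η ξ : H, star (s η) * s ξ = (inner ℂ η ξ : ℂ) • (1 : U)) (q : List H) :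
    ∀ r : List H, ∃ (c : ℂ) (l : List H × List H),
      star ((q.map s).prod) * (r.map s).prod = c • cword s l := by
  induction q with
  | nil => intro r; exact ⟨1, (r, []), by simp [cword]⟩
  | cons η q ih =>
    intro r
    cases r with
    | nil => exact ⟨1, ([], η :: q), by simp [cword]⟩
    | cons ξ r =>
      obtain ⟨c, l, h⟩ := ih r
      refine ⟨inner ℂ η ξ * c, l, ?_⟩
      simp only [List.map_cons, List.prod_cons]
      rw [star_mul, mul_assoc, ← mul_assoc (star (s η)), hs, smul_mul_assoc, one_mul,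
        mul_smul_comm, h, smul_smul]

theorem cword_mul (s : H →ₗ[ℂ] U)
    (hs : ∀ η ξ : H, star (s η) * s ξ = (inner ℂ η ξ : ℂ) • (1 : U)) (p q : List H × List H) :
    ∃ (c : ℂ) (l : List H × List H), cword s p * cword s q = c • cword s l := by
  obtain ⟨c, l, h⟩ := star_prod_mul s hs p.2 q.1
  refine ⟨c, (p.1 ++ l.1, q.2 ++ l.2), ?_⟩
  have e : cword s p * cword s q = (p.1.map s).prod * (star ((p.2.map s).prod) * (q.1.map s).prod)
      * star ((q.2.map s).prod) := by
    simp only [cword, mul_assoc]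
  rw [e, h]
  simp only [cword, List.map_append, List.prod_append, star_mul, mul_smul_comm, smul_mul_assoc,
    mul_assoc]

theorem star_cword (s : H →ₗ[ℂ] U) (p : List H × List H) : star (cword s p) = cword s (p.2, p.1) := by
  simp [cword]

/-- conjugation by a unitary normalizing `s(H)` -/
theorem conj_cword (s : H →ₗ[ℂ] U) (g : unitary U) (σ : H → H)
    (hσ : ∀ ξ, (g : U) * s ξ = s (σ ξ) * (g : U)) (p : List H × List H) :
    (g : U) * cword s p = cword s (p.1.map σ, p.2.map σ) * (g : U) := by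
  have h1 : ∀ l : List H, (g : U) * (l.map s).prod = ((l.map σ).map s).prod * (g : U) := by
    intro l
    induction l with
    | nil => simp
    | cons ξ l ih =>
      simp only [List.map_cons, List.prod_cons]
      rw [← mul_assoc, hσ, mul_assoc, ih, mul_assoc]
  have hgg : star (g : U) * (g : U) = 1 := Unitary.star_mul_self_of_mem g.2
  have hgg' : (g : U) * star (g : U) = 1 := Unitary.mul_star_self_of_mem g.2
  have h2 : (g : U) * star ((p.2.map s).prod) = star (((p.2.map σ).map s).prod) * (g : U) := by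
    have h3 := congrArg star (h1 p.2)
    rw [star_mul, star_mul] at h3
    calc (g : U) * star ((p.2.map s).prod)
        = (g : U) * (star ((p.2.map s).prod) * star (g : U)) * (g : U) := by
          rw [mul_assoc, mul_assoc, hgg, mul_one]
      _ = _ := by rw [h3, ← mul_assoc, hgg', one_mul]
  rw [cword, ← mul_assoc, h1, mul_assoc, h2, ← mul_assoc, cword]

/-- **Quasi-free endomorphisms.** -/
theorem main_cuntz (hPD : TaskPD) (hHS : TaskHS) (s : H →ₗ[ℂ] U)
    (hs : ∀ η ξ : H, star (s η) * s ξ = (inner ℂ η ξ : ℂ) • (1 : U))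
    (G : Subgroup (unitary U)) (hG : ∀ g ∈ G, ∀ ξ, ∃ ζ, (g : U) * s ξ * star (g : U) = s ζ)
    (hgen : (StarAlgebra.adjoin ℂ (Set.range s ∪ {x : U | ∃ g ∈ G, x = (g : U)})).topologicalClosure = ⊤)
    (α : U →⋆ₐ[ℂ] U) (hα : ∀ ξ, ∃ ζ, α (s ξ) = s ζ)
    (hαG : ∀ g ∈ G, ∃ c : ℂ, ‖c‖ = 1 ∧ α (g : U) = c • (g : U)) : ∀ x, PP α x := by
  intro x
  rcases subsingleton_or_nontrivial U with hU | hU
  · intro ε hε
    refine ⟨0, fun N _ => ?_⟩
    rw [Subsingleton.elim (∑ n ∈ range N, mob n • (α^[n]) x) 0, norm_zero]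
    positivity
  choose V hV using hα
  have hVi : ∀ η ξ, (inner ℂ (V η) (V ξ) : ℂ) = inner ℂ η ξ := by
    intro η ξ
    have h1 := hs (V η) (V ξ)
    rw [← hV, ← hV, ← map_star, ← map_mul, hs, map_smul, map_one] at h1
    exact (smul_left_injective ℂ (one_ne_zero : (1 : U) ≠ 0) h1).symm
  have hG' : ∀ g ∈ G, ∃ σ : H → H, ∀ ξ, (g : U) * s ξ = s (σ ξ) * (g : U) := by
    intro g hg
    choose σ hσ using hG g hg
    refine ⟨σ, fun ξ => ?_⟩
    rw [← hσ, mul_assoc, Unitary.star_mul_self_of_mem g.2, mul_one]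
  set R : Set U := {x | ∃ (p : List H × List H) (g : unitary U), g ∈ G ∧ x = cword s p * (g : U)}
    with hR
  have hmulR : ∀ x ∈ R, ∀ y ∈ R, x * y ∈ Submodule.span ℂ R := by
    rintro x ⟨p, g, hg, rfl⟩ y ⟨q, h, hh, rfl⟩
    obtain ⟨σ, hσ⟩ := hG' g hg
    obtain ⟨c, l, hc⟩ := cword_mul s hs p (q.1.map σ, q.2.map σ)
    have e : cword s p * (g : U) * (cword s q * (h : U)) = c • (cword s l * ((g * h : unitary U) : U)) := by
      have := conj_cword s g σ hσ q
      calc cword s p * (g : U) * (cword s q * (h : U))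
          = cword s p * ((g : U) * cword s q) * (h : U) := by simp only [mul_assoc]
        _ = (cword s p * cword s (q.1.map σ, q.2.map σ)) * ((g : U) * (h : U)) := by
          rw [this]; simp only [mul_assoc]
        _ = _ := by rw [hc, smul_mul_assoc]; rfl
    rw [e]
    exact Submodule.smul_mem _ _ (Submodule.subset_span ⟨l, g * h, G.mul_mem hg hh, rfl⟩)
  have hstarR : ∀ x ∈ R, star x ∈ R := by
    rintro x ⟨p, g, hg, rfl⟩
    obtain ⟨σ, hσ⟩ := hG' g⁻¹ (G.inv_mem hg)
    refine ⟨(p.2.map σ, p.1.map σ), g⁻¹, G.inv_mem hg, ?_⟩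
    rw [star_mul, star_cword, ← conj_cword s g⁻¹ σ hσ (p.2, p.1)]
    rfl
  let W : StarSubalgebra ℂ U :=
    { carrier := Submodule.span ℂ R
      mul_mem' := by
        intro a b ha hb
        have ha' : a ∈ Submodule.span ℂ R := ha
        have hb' : b ∈ Submodule.span ℂ R := hb
        have := Submodule.mul_mem_mul ha' hb'
        rw [Submodule.span_mul_span] at this
        refine Submodule.span_le.2 ?_ this
        rintro z ⟨x, hx, y, hy, rfl⟩
        exact hmulR x hx y hy
      add_mem' := fun ha hb => Submodule.add_mem _ ha hb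
      algebraMap_mem' := by
        intro r
        have : (1 : U) ∈ Submodule.span ℂ R :=
          Submodule.subset_span ⟨([], []), 1, G.one_mem, by simp [cword]⟩
        rw [Algebra.algebraMap_eq_smul_one]
        exact Submodule.smul_mem _ _ this
      star_mem' := by
        intro a ha
        have ha' : a ∈ Submodule.span ℂ R := ha
        show star a ∈ Submodule.span ℂ R
        induction ha' using Submodule.span_induction with
        | mem x hx => exact Submodule.subset_span (hstarR x hx)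
        | zero => rw [star_zero]; exact Submodule.zero_mem _
        | add x y _ _ hx hy => rw [star_add]; exact Submodule.add_mem _ (hx ‹_›) (hy ‹_›)
        | smul c x _ hx => rw [star_smul]; exact Submodule.smul_mem _ _ (hx ‹_›) }
  have hle : StarAlgebra.adjoin ℂ (Set.range s ∪ {x : U | ∃ g ∈ G, x = (g : U)}) ≤ W := by
    refine StarAlgebra.adjoin_le ?_
    rintro z (⟨ξ, rfl⟩ | ⟨g, hg, rfl⟩)
    · exact Submodule.subset_span ⟨([ξ], []), 1, G.one_mem, by simp [cword]⟩
    · exact Submodule.subset_span ⟨([], []), g, hg, by simp [cword]⟩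
  have hgenR : ∀ p (g : unitary U), g ∈ G → PP α (cword s p * (g : U)) := by
    intro p g hg ε hε
    obtain ⟨c, hc, hcg⟩ := hαG g hg
    obtain ⟨γ, rfl⟩ := exists_ee hc
    obtain ⟨N0, h0⟩ := PP.word hPD hHS s hs α V hVi hV p γ ε hε
    refine ⟨N0, fun N hN => ?_⟩
    have hn : ∀ n : ℕ, (α^[n]) (g : U) = (ee (γ * n)) • (g : U) := by
      intro n
      induction n with
      | zero => simp [ee_zero]
      | succ n ih =>
        rw [Function.iterate_succ_apply', ih, map_smul, hcg, smul_smul, ← ee_add]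
        congr 2
        push_cast; ring
    have e : ∑ n ∈ range N, mob n • (α^[n]) (cword s p * (g : U))
        = (∑ n ∈ range N, (mob n * ee (γ * n)) • (α^[n]) (cword s p)) * (g : U) := by
      rw [sum_mul]
      refine sum_congr rfl fun n _ => ?_
      rw [iter_mul, hn, mul_smul_comm, smul_smul, smul_mul_assoc]
    rw [e]
    refine (norm_mul_le _ _).trans ?_
    calc _ ≤ (ε * N) * 1 := mul_le_mul (h0 N hN) (norm_unitary_le g.2) (norm_nonneg _) (by positivity)
      _ = ε * N := mul_one _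
  have hS : ∀ y ∈ Submodule.span ℂ R, PP α y := by
    intro y hy
    induction hy using Submodule.span_induction with
    | mem y hy => obtain ⟨p, g, hg, rfl⟩ := hy; exact hgenR p g hg
    | zero => exact PP.zero α
    | add x y _ _ hx hy => exact hx.add hy
    | smul c x _ hx => exact hx.smul c
  refine PP.closed α hS x ?_
  have hx : x ∈ (StarAlgebra.adjoin ℂ (Set.range s ∪ {x : U | ∃ g ∈ G, x = (g : U)})).topologicalClosure := by
    rw [hgen]; trivial
  exact closure_mono (s := ((StarAlgebra.adjoin ℂ (Set.range s ∪ {x : U | ∃ g ∈ G, x = (g : U)}) :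
    StarSubalgebra ℂ U) : Set U)) (fun z hz => hle hz) hx

end

end Pool.Agent.Helper188.NCM
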