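import Pool.Agent.Helper188.NCM.RD

set_option autoImplicit false

open Finset Filter Topology

namespace Pool.Agent.Helper188.NCM

section

variable {U : Type} [CStarAlgebra U]

/-- `ℓ²(X)` -/
noncomputable abbrev L2 (X : Type) := lp (fun _ : X => ℂ) 2

/-- **Free groups**, version with norms. -/
theorem main_free' (hAP : APCase) (hQ : ∀ A, QM A) (α : U →⋆ₐ[ℂ] U) (S : Type)
    (π : FreeGroup S →* unitary U)
    (hnorm : ∀ f : FreeGroup S →₀ ℂ, ‖∑ g ∈ f.support, f g • (π g : U)‖ ≤
      ‖∑ g ∈ f.support, f g • (Pool.CS.lam g : L2 (FreeGroup S) →L[ℂ] L2 (FreeGroup S))‖)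
    (hspan : (Submodule.span ℂ (Set.range fun g => (π g : U))).topologicalClosure = ⊤)
    (e : S → S) (he : Function.Injective e)
    (hα : ∀ s, ∃ z : ℂ, ‖z‖ = 1 ∧ α (π (FreeGroup.of s)) = z • (π (FreeGroup.of (e s)) : U)) :
    ∀ x, PP α x := by
  classical
  have hstar : ∀ g, star (π g : U) = (π g⁻¹ : U) := fun g => by
    rw [← Unitary.coe_star, Unitary.star_eq_inv, map_inv]
  have hα' : ∀ g, ∃ c : ℂ, ‖c‖ = 1 ∧ α (π g : U) = c • (π (FreeGroup.map e g) : U) := by
    intro g
    induction g using FreeGroup.induction_on with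
    | C1 => exact ⟨1, by simp, by simp⟩
    | of s =>
      obtain ⟨z, hz, h⟩ := hα s
      exact ⟨z, hz, by rw [h, FreeGroup.map.of]⟩
    | inv_of s _ =>
      obtain ⟨z, hz, h⟩ := hα s
      refine ⟨star z, by rw [norm_star, hz], ?_⟩
      rw [← hstar, map_star, h, star_smul, hstar, map_inv (FreeGroup.map e), FreeGroup.map.of]
    | mul x y hx hy =>
      obtain ⟨c, hc, h1⟩ := hx
      obtain ⟨d, hd, h2⟩ := hy
      refine ⟨c * d, by rw [norm_mul, hc, hd, one_mul], ?_⟩
      rw [map_mul π, Submonoid.coe_mul, map_mul α, h1, h2, smul_mul_smul_comm, map_mul, map_mul,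
        Submonoid.coe_mul]
  have hnorm1 : ∀ g : FreeGroup S, (FreeGroup.map e g).norm ≤ g.norm := by
    intro g
    conv_lhs => rw [← FreeGroup.mk_toWord (x := g), FreeGroup.map.mk]
    refine FreeGroup.norm_mk_le.trans ?_
    rw [List.length_map]
    rfl
  have hnormit : ∀ (n : ℕ) (g : FreeGroup S), ((FreeGroup.map e)^[n] g).norm ≤ g.norm := by
    intro n
    induction n with
    | zero => intro g; simp
    | succ n ih =>
      intro g
      rw [Function.iterate_succ_apply]
      exact (ih _).trans (hnorm1 g)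
  refine main_rd hAP hQ α (fun g => (π g : U)) (fun g => (π g).2) hspan (FreeGroup.map e)
    (FreeGroup.map_injective he) hα' (fun g => g.toWord.length) 1 zero_le_one 2 ?_ ?_
  · intro f L hf
    rw [one_mul]
    exact (hnorm f).trans (Pool.CS.haag f L hf)
  · intro g
    have h2 : Tendsto (fun n : ℕ => (((g.norm : ℝ) + 1) ^ 2) / Real.sqrt n) atTop (𝓝 0) :=
      Tendsto.div_atTop tendsto_const_nhds
        (Real.tendsto_sqrt_atTop.comp tendsto_natCast_atTop_atTop)
    refine squeeze_zero (fun n => by positivity) (fun n => ?_) h2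
    have h3 : ((((FreeGroup.map e)^[n] g).toWord.length : ℕ) : ℝ) ≤ (g.norm : ℝ) := by
      exact_mod_cast hnormit n g
    gcongr

/-- **Free groups.** -/
theorem main_free (hAP : APCase) (hQ : ∀ A, QM A) (α : U →⋆ₐ[ℂ] U) (S : Type)
    (π : FreeGroup S → U) (ι : U →⋆ₐ[ℂ] (L2 (FreeGroup S) →L[ℂ] L2 (FreeGroup S)))
    (hι : Function.Injective ι)
    (hπ : ∀ (g : FreeGroup S) (f : L2 (FreeGroup S)) (h : FreeGroup S),
      (ι (π g) f) h = f (g⁻¹ * h))
    (hspan : (Submodule.span ℂ (Set.range π)).topologicalClosure = ⊤)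
    (e : S → S) (he : Function.Injective e)
    (hα : ∀ s, ∃ z : ℂ, ‖z‖ = 1 ∧ α (π (FreeGroup.of s)) = z • π (FreeGroup.of (e s))) :
    ∀ x, PP α x := by
  classical
  have hl : ∀ g, ι (π g) = Pool.CS.lam g := by
    intro g
    ext f h
    rw [hπ, Pool.CS.lam_apply]
  have hmul : ∀ g h, π (g * h) = π g * π h := fun g h => hι (by
    rw [map_mul, hl, hl, hl, Pool.CS.lam_mul])
  have hone : π 1 = 1 := hι (by rw [map_one, hl, Pool.CS.lam_one])
  have hstar : ∀ g, star (π g) = π g⁻¹ := fun g => hι (by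
    rw [map_star, hl, hl, Pool.CS.star_lam])
  have hu : ∀ g, π g ∈ unitary U := by
    intro g
    refine Unitary.mem_iff.2 ⟨?_, ?_⟩
    · rw [hstar, ← hmul, inv_mul_cancel, hone]
    · rw [hstar, ← hmul, mul_inv_cancel, hone]
  have hα' : ∀ g, ∃ c : ℂ, ‖c‖ = 1 ∧ α (π g) = c • π (FreeGroup.map e g) := by
    intro g
    induction g using FreeGroup.induction_on with
    | C1 => exact ⟨1, by simp, by rw [hone, map_one, map_one, hone, one_smul]⟩
    | of s =>
      obtain ⟨z, hz, h⟩ := hα s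
      exact ⟨z, hz, by rw [h, FreeGroup.map.of]⟩
    | inv_of s _ =>
      obtain ⟨z, hz, h⟩ := hα s
      refine ⟨star z, by rw [norm_star, hz], ?_⟩
      rw [← hstar, map_star, h, star_smul, hstar, map_inv, FreeGroup.map.of]
    | mul x y hx hy =>
      obtain ⟨c, hc, h1⟩ := hx
      obtain ⟨d, hd, h2⟩ := hy
      refine ⟨c * d, by rw [norm_mul, hc, hd, one_mul], ?_⟩
      rw [hmul, map_mul, h1, h2, smul_mul_smul_comm, map_mul, hmul]
  have hnorm : ∀ g : FreeGroup S, (FreeGroup.map e g).norm ≤ g.norm := by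
    intro g
    conv_lhs => rw [← FreeGroup.mk_toWord (x := g), FreeGroup.map.mk]
    refine FreeGroup.norm_mk_le.trans ?_
    rw [List.length_map]
    rfl
  have hnormit : ∀ (n : ℕ) (g : FreeGroup S), ((FreeGroup.map e)^[n] g).norm ≤ g.norm := by
    intro n
    induction n with
    | zero => intro g; simp
    | succ n ih =>
      intro g
      rw [Function.iterate_succ_apply]
      exact (ih _).trans (hnorm g)
  refine main_rd hAP hQ α π hu hspan (FreeGroup.map e) (FreeGroup.map_injective he) hα'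
    (fun g => g.toWord.length) 1 zero_le_one 2 ?_ ?_
  · intro f L hf
    have h1 := Pool.CS.haag f L hf
    have e1 : ι (∑ g ∈ f.support, f g • π g) = ∑ g ∈ f.support, f g • (Pool.CS.lam g) := by
      rw [map_sum]
      exact Finset.sum_congr rfl fun g _ => by rw [map_smul, hl]
    rw [← NonUnitalStarAlgHom.norm_map ι hι, e1, one_mul]
    exact h1
  · intro g
    have h2 : Tendsto (fun n : ℕ => (((g.norm : ℝ) + 1) ^ 2) / Real.sqrt n) atTop (𝓝 0) :=
      Tendsto.div_atTop tendsto_const_nhds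
        (Real.tendsto_sqrt_atTop.comp tendsto_natCast_atTop_atTop)
    refine squeeze_zero (fun n => by positivity) (fun n => ?_) h2
    have h3 : ((((FreeGroup.map e)^[n] g).toWord.length : ℕ) : ℝ) ≤ (g.norm : ℝ) := by
      exact_mod_cast hnormit n g
    gcongr

end

end Pool.Agent.Helper188.NCM
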