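import Pool.Agent.H398R3.NCM.PD

/-! Positive definite sequences with values in a C*-algebra (after `PD.lean` of helper398). -/

set_option autoImplicit false

open Finset

namespace Pool.Agent.Helper188.NCM

open Pool.Agent.H398R3.NCM (E_sum count)

section

variable {U : Type} [CStarAlgebra U]

theorem ee_add' (x y : ℝ) : ee (x + y) = ee x * ee y := Pool.Agent.H398R3.NCM.ee_add x y
theorem star_ee' (x : ℝ) : star (ee x) = ee (-x) := Pool.Agent.H398R3.NCM.star_ee x

theorem pdu (g : ℤ → U)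
    (hg : ∀ (M : ℕ) (x : ℕ → ℂ), ∃ y : U,
      ∑ n ∈ range M, ∑ m ∈ range M, (x n * star (x m)) • g ((n : ℤ) - m) = star y * y)
    (N : ℕ) (c : ℕ → ℂ) (C : ℝ) (hβ : ∀ β : ℝ, ‖∑ n ∈ range N, c n * ee (β * n)‖ ≤ C) :
    ‖∑ n ∈ range N, ∑ m ∈ range N, (c n * star (c m)) • g ((n : ℤ) - m)‖ ≤ C ^ 2 * ‖g 0‖ := by
  let _ := CStarAlgebra.spectralOrder U
  have _ := CStarAlgebra.spectralOrderedRing U
  set T : U := ∑ n ∈ range N, ∑ m ∈ range N, (c n * star (c m)) • g ((n : ℤ) - m) with hT
  set B : U := ∑ n ∈ range N, ∑ m ∈ range N,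
    (c n * star (c m) * ((|(n : ℤ) - m| : ℤ) : ℂ)) • g ((n : ℤ) - m) with hB
  have hT0 : 0 ≤ T := by
    obtain ⟨y, hy⟩ := hg N c
    rw [hT, hy]
    exact star_mul_self_nonneg y
  have key : ∀ M : ℕ, N ≤ M → 0 < M → ‖T‖ ≤ C ^ 2 * ‖g 0‖ + ‖B‖ / M := by
    intro M hNM hM
    set L : ℕ := M + N with hL
    have hL0 : 0 < L := by omega
    set P : ℕ → ℂ := fun j => ∑ n ∈ range N, c n * ee (-((j : ℝ) / L) * n) with hP
    set W : ℕ → U := fun j => ∑ k ∈ range M, ∑ l ∈ range M,
      (ee ((j : ℝ) / L * k) * star (ee ((j : ℝ) / L * l))) • g ((k : ℤ) - l) with hW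
    have hW1 : ∀ j, 0 ≤ W j := fun j => by
      obtain ⟨y, hy⟩ := hg M (fun k => ee ((j : ℝ) / L * k))
      rw [hW]
      simp only
      rw [hy]
      exact star_mul_self_nonneg y
    have hWsum : ∑ j ∈ range L, W j = ((L : ℂ) * M) • g 0 := by
      simp only [hW]
      rw [sum_comm]
      have : ∀ k ∈ range M, ∑ j ∈ range L, ∑ l ∈ range M,
          (ee ((j : ℝ) / L * k) * star (ee ((j : ℝ) / L * l))) • g ((k : ℤ) - l) =
          (L : ℂ) • g 0 := by
        intro k hk
        rw [sum_comm]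
        have h1 : ∀ l ∈ range M, ∑ j ∈ range L,
            (ee ((j : ℝ) / L * k) * star (ee ((j : ℝ) / L * l))) • g ((k : ℤ) - l) =
            if l = k then (L : ℂ) • g 0 else 0 := by
          intro l hl
          rw [mem_range] at hk hl
          rw [← sum_smul]
          have h2 : ∀ j ∈ range L, ee ((j : ℝ) / L * k) * star (ee ((j : ℝ) / L * l)) =
              ee ((j : ℝ) / L * ((k : ℤ) - l : ℤ)) := by
            intro j _
            rw [star_ee', ← ee_add']
            congr 1
            push_cast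
            ring
          rw [sum_congr rfl h2, E_sum L hL0 _ (by rw [abs_lt]; constructor <;> omega)]
          by_cases hlk : l = k
          · subst hlk; simp
          · rw [if_neg (by omega), if_neg hlk, zero_smul]
        rw [sum_congr rfl h1, sum_ite_eq' (range M) k, if_pos hk]
      rw [sum_congr rfl this]
      rw [sum_const, card_range, ← Nat.cast_smul_eq_nsmul ℂ, smul_smul, mul_comm]
    have hmain : ∑ j ∈ range L, (P j * star (P j)) • W j =
        ∑ n ∈ range N, ∑ m ∈ range N, ((L : ℂ) * (c n * star (c m)) *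
          ((M : ℂ) - ((|(n : ℤ) - m| : ℤ) : ℂ))) • g ((n : ℤ) - m) := by
      have h1 : ∀ j ∈ range L, (P j * star (P j)) • W j =
          ∑ n ∈ range N, ∑ m ∈ range N, ∑ k ∈ range M, ∑ l ∈ range M,
            (c n * star (c m) *
              ee ((j : ℝ) / L * (((k : ℤ) - l) - ((n : ℤ) - m) : ℤ))) • g ((k : ℤ) - l) := by
        intro j _
        simp only [hP, hW]
        rw [star_sum, sum_mul_sum, sum_smul]
        refine sum_congr rfl fun n _ => ?_
        rw [sum_smul]
        refine sum_congr rfl fun m _ => ?_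
        rw [smul_sum]
        refine sum_congr rfl fun k _ => ?_
        rw [smul_sum]
        refine sum_congr rfl fun l _ => ?_
        rw [smul_smul]
        congr 1
        rw [star_mul', star_ee', star_ee']
        have e1 : ee ((j : ℝ) / L * (((k : ℤ) - l) - ((n : ℤ) - m) : ℤ)) =
            ee (-((j : ℝ) / L) * n) * ee (-(-((j : ℝ) / L) * m)) *
              (ee ((j : ℝ) / L * k) * ee (-((j : ℝ) / L * l))) := by
          rw [← ee_add', ← ee_add', ← ee_add']
          congr 1
          push_cast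
          ring
        rw [e1]
        ring
      rw [sum_congr rfl h1, sum_comm]
      refine sum_congr rfl fun n hn => ?_
      rw [sum_comm]
      refine sum_congr rfl fun m hm => ?_
      rw [mem_range] at hn hm
      rw [sum_comm]
      have h2 : ∀ k ∈ range M, ∑ j ∈ range L, ∑ l ∈ range M, (c n * star (c m) *
          ee ((j : ℝ) / L * (((k : ℤ) - l) - ((n : ℤ) - m) : ℤ))) • g ((k : ℤ) - l) =
          (∑ l ∈ range M, (L : ℂ) * (c n * star (c m)) *
            (if ((k : ℤ) - l) = (n : ℤ) - m then (1 : ℂ) else 0)) • g ((n : ℤ) - m) := by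
        intro k hk
        rw [sum_comm, sum_smul]
        refine sum_congr rfl fun l hl => ?_
        rw [mem_range] at hk hl
        rw [← sum_smul, ← mul_sum, E_sum L hL0 _ (by rw [abs_lt]; constructor <;> omega)]
        by_cases h : ((k : ℤ) - l) = (n : ℤ) - m
        · rw [if_pos (by omega), if_pos h, h]
          congr 1
          ring
        · rw [if_neg (by omega), if_neg h, mul_zero, mul_zero, zero_smul, zero_smul]
      rw [sum_congr rfl h2, ← sum_smul]
      congr 1
      simp only [← mul_sum]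
      rw [count M _ (by rw [abs_le]; constructor <;> omega)]
    have hle : ∑ j ∈ range L, (P j * star (P j)) • W j ≤ ((C ^ 2 : ℝ) : ℂ) • ∑ j ∈ range L, W j := by
      rw [smul_sum]
      refine sum_le_sum fun j _ => ?_
      have h1 : P j * star (P j) = ((‖P j‖ ^ 2 : ℝ) : ℂ) := by
        rw [Complex.star_def, Complex.mul_conj, Complex.normSq_eq_norm_sq]
      rw [h1]
      have h2 : ‖P j‖ ≤ C := hβ _
      have h3 : ‖P j‖ ^ 2 ≤ C ^ 2 := by
        have := norm_nonneg (P j)
        nlinarith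
      have h4 : (0 : U) ≤ ((C ^ 2 - ‖P j‖ ^ 2 : ℝ) : ℝ) • W j :=
        smul_nonneg (by linarith) (hW1 j)
      rw [← sub_nonneg, ← sub_smul]
      have e : (((C ^ 2 : ℝ) : ℂ) - ((‖P j‖ ^ 2 : ℝ) : ℂ)) • W j
          = ((C ^ 2 - ‖P j‖ ^ 2 : ℝ) : ℝ) • W j := by
        rw [← Complex.ofReal_sub, Complex.coe_smul]
      rw [e]
      exact h4
    have h3 : ∑ n ∈ range N, ∑ m ∈ range N, ((L : ℂ) * (c n * star (c m)) *
          ((M : ℂ) - ((|(n : ℤ) - m| : ℤ) : ℂ))) • g ((n : ℤ) - m) =
        (L : ℂ) • ((M : ℂ) • T - B) := by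
      rw [hT, hB]
      simp only [smul_sum, smul_sub, ← sum_sub_distrib, smul_smul, ← sub_smul]
      refine sum_congr rfl fun n _ => sum_congr rfl fun m _ => ?_
      congr 1
      ring
    rw [hmain, hWsum, h3] at hle
    have hLM : (0 : ℝ) < L * M := by positivity
    have h5 : T ≤ ((C ^ 2 : ℝ) : ℂ) • g 0 + ((1 / (M : ℝ) : ℝ) : ℂ) • B := by
      have h6 := smul_le_smul_of_nonneg_left hle (inv_nonneg.2 hLM.le)
      have e1 : ((L : ℝ) * M)⁻¹ • ((L : ℂ) • ((M : ℂ) • T - B)) = T - ((1 / (M : ℝ) : ℝ) : ℂ) • B := by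
        have hL1 : (L : ℂ) ≠ 0 := by exact_mod_cast hL0.ne'
        have hM1 : (M : ℂ) ≠ 0 := by exact_mod_cast hM.ne'
        rw [← Complex.coe_smul, smul_smul, smul_sub, smul_smul]
        push_cast
        have a1 : ((L : ℂ) * M)⁻¹ * L * M = 1 := by field_simp
        have a2 : ((L : ℂ) * M)⁻¹ * L = 1 / (M : ℂ) := by field_simp
        rw [a1, one_smul, a2]
      have e2 : ((L : ℝ) * M)⁻¹ • (((C ^ 2 : ℝ) : ℂ) • (((L : ℂ) * M) • g 0)) = ((C ^ 2 : ℝ) : ℂ) • g 0 := by
        have hL1 : (L : ℂ) ≠ 0 := by exact_mod_cast hL0.ne'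
        have hM1 : (M : ℂ) ≠ 0 := by exact_mod_cast hM.ne'
        rw [← Complex.coe_smul, smul_smul, smul_smul]
        congr 1
        push_cast
        field_simp
      rw [e1, e2] at h6
      rw [sub_le_iff_le_add] at h6
      exact h6
    have h7 := CStarAlgebra.norm_le_norm_of_nonneg_of_le hT0 h5
    refine h7.trans ((norm_add_le _ _).trans ?_)
    rw [norm_smul, norm_smul, Complex.norm_real, Complex.norm_real, Real.norm_of_nonneg (by positivity),
      Real.norm_of_nonneg (by positivity)]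
    apply le_of_eq
    ring
  have hlim : Filter.Tendsto (fun M : ℕ => C ^ 2 * ‖g 0‖ + ‖B‖ / (M : ℝ)) Filter.atTop
      (nhds (C ^ 2 * ‖g 0‖ + 0)) :=
    Filter.Tendsto.const_add _ (tendsto_const_div_atTop_nhds_zero_nat ‖B‖)
  rw [add_zero] at hlim
  refine ge_of_tendsto hlim ?_
  filter_upwards [Filter.eventually_ge_atTop (N + 1)] with M hM
  exact key M (by omega) (by omega)

end

end Pool.Agent.Helper188.NCM
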