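import Pool.Agent.Helper188.NCM.Group
import Pool.Agent.Helper694.CS.J_haag

set_option autoImplicit false

open Finset Filter Topology

namespace Pool.Agent.Helper188.NCM

section

variable {U : Type} [CStarAlgebra U]

/-- slow orbits in algebras with the property of rapid decay -/
theorem PP.slow (α : U →⋆ₐ[ℂ] U) {G : Type} (π : G → U) (φ : G → G) (c : ℕ → ℂ)
    (hc : ∀ n, ‖c n‖ ≤ 1) (ℓ : G → ℕ) (C : ℝ) (hC : 0 ≤ C) (k : ℕ)
    (hRD : ∀ (f : G →₀ ℂ) (L : ℕ), (∀ g ∈ f.support, ℓ g ≤ L) →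
      ‖∑ g ∈ f.support, f g • π g‖ ≤ C * ((L : ℝ) + 1) ^ k * Real.sqrt (∑ g ∈ f.support, ‖f g‖ ^ 2))
    (g : G) (hinj : Function.Injective fun n : ℕ => φ^[n] g)
    (hα : ∀ n, (α^[n]) (π g) = c n • π (φ^[n] g))
    (hslow : Tendsto (fun n : ℕ => ((ℓ (φ^[n] g) : ℝ) + 1) ^ k / Real.sqrt n) atTop (𝓝 0)) :
    PP α (π g) := by
  classical
  intro ε hε
  set δ : ℝ := ε / (C + 1) with hδ
  have hδ0 : 0 < δ := by positivity
  obtain ⟨n₀, hn₀⟩ := eventually_atTop.1 ((hslow.eventually (gt_mem_nhds hδ0)).and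
    (eventually_ge_atTop 1))
  -- a bound for the initial terms
  set B : ℝ := ∑ n ∈ range n₀, ((ℓ (φ^[n] g) : ℝ) + 1) ^ k with hB
  have hB0 : 0 ≤ B := sum_nonneg fun n _ => by positivity
  obtain ⟨N₁, hN₁⟩ := exists_nat_ge ((B / δ) ^ 2)
  refine ⟨max N₁ 1, fun N hN => ?_⟩
  have hN1 : 1 ≤ N := (le_max_right _ _).trans hN
  have hNB : B ≤ δ * Real.sqrt N := by
    have h1 : (B / δ) ^ 2 ≤ N := hN₁.trans (by exact_mod_cast (le_max_left _ _).trans hN)
    have h2 : B / δ ≤ Real.sqrt N := Real.le_sqrt_of_sq_le h1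
    rw [div_le_iff₀ hδ0] at h2
    linarith
  have hall : ∀ n ∈ range N, ((ℓ (φ^[n] g) : ℝ) + 1) ^ k ≤ δ * Real.sqrt N := by
    intro n hn
    rcases lt_or_ge n n₀ with h | h
    · refine le_trans ?_ hNB
      rw [hB]
      exact single_le_sum (f := fun n => ((ℓ (φ^[n] g) : ℝ) + 1) ^ k)
        (fun i _ => by positivity) (mem_range.2 h)
    · obtain ⟨h1, h2⟩ := hn₀ n h
      have hs : 0 < Real.sqrt n := Real.sqrt_pos.2 (by exact_mod_cast h2)
      rw [div_lt_iff₀ hs] at h1
      refine h1.le.trans ?_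
      have : Real.sqrt n ≤ Real.sqrt N :=
        Real.sqrt_le_sqrt (by exact_mod_cast (mem_range.1 hn).le)
      gcongr
  -- the finitely supported function
  set f : G →₀ ℂ := ∑ n ∈ range N, Finsupp.single (φ^[n] g) (mob n * c n) with hf
  have hfval : ∀ n ∈ range N, f (φ^[n] g) = mob n * c n := by
    intro n hn
    rw [hf, Finsupp.finsetSum_apply, sum_eq_single n]
    · simp
    · intro m _ hmn
      rw [Finsupp.single_apply, if_neg]
      exact fun h => hmn (hinj h)
    · intro h; exact absurd hn h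
  have hsupp : f.support ⊆ (range N).image fun n => φ^[n] g := by
    intro x hx
    by_contra hx'
    apply Finsupp.mem_support_iff.1 hx
    rw [hf, Finsupp.finsetSum_apply]
    refine sum_eq_zero fun n hn => ?_
    rw [Finsupp.single_apply, if_neg]
    intro h
    exact hx' (mem_image.2 ⟨n, hn, h⟩)
  have hinjOn : Set.InjOn (fun n : ℕ => φ^[n] g) (range N) := fun a _ b _ h => hinj h
  have e1 : ∑ n ∈ range N, mob n • (α^[n]) (π g) = ∑ x ∈ f.support, f x • π x := by
    rw [sum_subset hsupp (fun x _ hx => by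
      rw [Finsupp.notMem_support_iff.1 hx, zero_smul]), sum_image hinjOn]
    refine sum_congr rfl fun n hn => ?_
    rw [hα, smul_smul, hfval n hn]
  have e2 : ∑ x ∈ f.support, ‖f x‖ ^ 2 ≤ N := by
    rw [sum_subset hsupp (fun x _ hx => by
      rw [Finsupp.notMem_support_iff.1 hx]; simp), sum_image hinjOn]
    calc _ ≤ ∑ n ∈ range N, (1 : ℝ) := by
          refine sum_le_sum fun n hn => ?_
          rw [hfval n hn]
          have : ‖mob n * c n‖ ≤ 1 := by
            rw [norm_mul]
            calc _ ≤ (1 : ℝ) * 1 := by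
                  gcongr
                  · exact norm_mob_le n
                  · exact hc n
              _ = 1 := one_mul _
          exact pow_le_one₀ (norm_nonneg _) this
      _ = N := by simp
  rw [e1]
  -- the largest length
  obtain ⟨m, hm, hmax⟩ := exists_max_image (range N) (fun n => ℓ (φ^[n] g))
    ⟨0, mem_range.2 (by omega)⟩
  have h3 := hRD f (ℓ (φ^[m] g)) (fun x hx => by
    obtain ⟨n, hn, rfl⟩ := mem_image.1 (hsupp hx)
    exact hmax n hn)
  refine h3.trans ?_
  have h4 : Real.sqrt (∑ x ∈ f.support, ‖f x‖ ^ 2) ≤ Real.sqrt N := Real.sqrt_le_sqrt e2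
  have h5 : C * ((ℓ (φ^[m] g) : ℝ) + 1) ^ k ≤ C * (δ * Real.sqrt N) :=
    mul_le_mul_of_nonneg_left (hall m hm) hC
  calc C * ((ℓ (φ^[m] g) : ℝ) + 1) ^ k * Real.sqrt (∑ x ∈ f.support, ‖f x‖ ^ 2)
      ≤ C * (δ * Real.sqrt N) * Real.sqrt N := by gcongr
    _ = (C * δ) * N := by rw [mul_assoc, mul_assoc, Real.mul_self_sqrt (by positivity)]; ring
    _ ≤ ε * N := by
      gcongr
      rw [hδ, mul_div_assoc', div_le_iff₀ (by positivity)]
      nlinarith

/-- **Möbius disjointness in norm for algebras with the property of rapid decay.** -/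
theorem main_rd (hAP : APCase) (hQ : ∀ A, QM A) (α : U →⋆ₐ[ℂ] U) {G : Type} (π : G → U)
    (hu : ∀ g, π g ∈ unitary U) (hspan : (Submodule.span ℂ (Set.range π)).topologicalClosure = ⊤)
    (φ : G → G) (hφ : Function.Injective φ)
    (hα : ∀ g, ∃ c : ℂ, ‖c‖ = 1 ∧ α (π g) = c • π (φ g))
    (ℓ : G → ℕ) (C : ℝ) (hC : 0 ≤ C) (k : ℕ)
    (hRD : ∀ (f : G →₀ ℂ) (L : ℕ), (∀ g ∈ f.support, ℓ g ≤ L) →
      ‖∑ g ∈ f.support, f g • π g‖ ≤ C * ((L : ℝ) + 1) ^ k * Real.sqrt (∑ g ∈ f.support, ‖f g‖ ^ 2))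
    (hslow : ∀ g, Tendsto (fun n : ℕ => ((ℓ (φ^[n] g) : ℝ) + 1) ^ k / Real.sqrt n) atTop (𝓝 0)) :
    ∀ x, PP α x := by
  have hit : ∀ (n : ℕ) (g : G), ∃ c : ℂ, ‖c‖ = 1 ∧ (α^[n]) (π g) = c • π (φ^[n] g) := by
    intro n
    induction n with
    | zero => intro g; exact ⟨1, by simp, by simp⟩
    | succ n ih =>
      intro g
      obtain ⟨c, hc, h1⟩ := hα g
      obtain ⟨c', hc', h2⟩ := ih (φ g)
      refine ⟨c * c', by rw [norm_mul, hc, hc', one_mul], ?_⟩
      rw [Function.iterate_succ_apply, Function.iterate_succ_apply, h1, iter_smul, h2, smul_smul]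
  have hgen : ∀ g, PP α (π g) := by
    intro g
    by_cases hfin : ∃ m : ℕ, 0 < m ∧ φ^[m] g = g
    · obtain ⟨m, hm, h1⟩ := hfin
      obtain ⟨c, hc, h2⟩ := hit m g
      rw [h1] at h2
      refine PP.class_two hAP hQ α m hm (π g) (c • 1) (norm_unitary_le (hu g))
        (smul_unitary hc (one_mem _)) 0 ?_ ?_
      · rw [h2, mul_smul_comm, mul_one]
      · rw [iter_smul, ee_zero, one_smul]
        congr 1
        clear h1 h2
        induction m with
        | zero => simp
        | succ m ih => 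
          rcases Nat.eq_zero_or_pos m with h0 | h0
          · subst h0; simp
          · rw [Function.iterate_succ_apply', ih h0, map_one]
    · choose c hc h1 using fun n => hit n g
      refine PP.slow α π φ c (fun n => (hc n).le) ℓ C hC k hRD g ?_ h1 (hslow g)
      intro a b hab
      simp only at hab
      by_contra hne
      apply hfin
      rcases Nat.lt_or_gt_of_ne hne with h | h
      · refine ⟨b - a, by omega, ?_⟩
        have e : φ^[b] g = φ^[a] (φ^[b - a] g) := by
          rw [← Function.iterate_add_apply]; congr 1; omega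
        rw [e] at hab
        exact (hφ.iterate a hab).symm
      · refine ⟨a - b, by omega, ?_⟩
        have e : φ^[a] g = φ^[b] (φ^[a - b] g) := by
          rw [← Function.iterate_add_apply]; congr 1; omega
        rw [e] at hab
        exact hφ.iterate b hab
  have hS : ∀ x ∈ Submodule.span ℂ (Set.range π), PP α x := by
    intro x hx
    induction hx using Submodule.span_induction with
    | mem x hx => obtain ⟨g, rfl⟩ := hx; exact hgen g
    | zero => exact PP.zero α
    | add x y _ _ hx hy => exact hx.add hy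
    | smul c x _ hx => exact hx.smul c
  intro x
  refine PP.closed α hS x ?_
  rw [hspan]; trivial

end

end Pool.Agent.Helper188.NCM
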