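import Pool.Agent.Helper188.NCM.Group

set_option autoImplicit false

open Finset Filter Topology
open scoped Pointwise

namespace Pool.Agent.Helper188.NCM

section

variable {U : Type} [CStarAlgebra U]

/-- unimodular scalars -/
def ScG (U : Type) [CStarAlgebra U] : Subgroup (unitary U) where
  carrier := {x | ∃ c : ℂ, ‖c‖ = 1 ∧ (x : U) = c • 1}
  mul_mem' := by
    rintro x y ⟨c, hc, hx⟩ ⟨d, hd, hy⟩
    refine ⟨c * d, by rw [norm_mul, hc, hd, one_mul], ?_⟩
    rw [Submonoid.coe_mul, hx, hy, smul_mul_smul_comm, one_mul]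
  one_mem' := ⟨1, by simp, by simp⟩
  inv_mem' := by
    rintro x ⟨c, hc, hx⟩
    refine ⟨star c, by rw [norm_star, hc], ?_⟩
    rw [← Unitary.star_eq_inv, Unitary.coe_star, hx, star_smul, star_one]

instance : (ScG U).Normal := ⟨by
  rintro x ⟨c, hc, hx⟩ y
  refine ⟨c, hc, ?_⟩
  rw [Submonoid.coe_mul, Submonoid.coe_mul, hx, mul_smul_comm, mul_one, smul_mul_assoc,
    ← Submonoid.coe_mul, mul_inv_cancel, Submonoid.coe_one]⟩

theorem rel_iff (x y : unitary U) : ((QuotientGroup.mk x : unitary U ⧸ ScG U) = QuotientGroup.mk y)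
    ↔ ∃ c : ℂ, ‖c‖ = 1 ∧ (y : U) = c • (x : U) := by
  rw [QuotientGroup.eq]
  constructor
  · rintro ⟨c, hc, h⟩
    refine ⟨c, hc, ?_⟩
    have : (y : U) = (x : U) * ((x⁻¹ * y : unitary U) : U) := by
      rw [← Submonoid.coe_mul, mul_inv_cancel_left]
    rw [this, h, mul_smul_comm, mul_one]
  · rintro ⟨c, hc, h⟩
    refine ⟨c, hc, ?_⟩
    rw [Submonoid.coe_mul, h, mul_smul_comm, ← Submonoid.coe_mul, inv_mul_cancel,
      Submonoid.coe_one]

/-- the monomials `u ^ k * v ^ l` -/
def mon (u v : unitary U) (g : Multiplicative (Fin 2 → ℤ)) : unitary U :=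
  u ^ (Multiplicative.toAdd g 0) * v ^ (Multiplicative.toAdd g 1)

theorem mk_mon (u v : unitary U) (g : Multiplicative (Fin 2 → ℤ)) :
    (QuotientGroup.mk (mon u v g) : unitary U ⧸ ScG U)
      = (QuotientGroup.mk u) ^ (Multiplicative.toAdd g 0)
        * (QuotientGroup.mk v) ^ (Multiplicative.toAdd g 1) := by
  rw [mon, QuotientGroup.mk_mul, QuotientGroup.mk_zpow, QuotientGroup.mk_zpow]

theorem mk_comm {u v : unitary U} {q : ℂ} (hq : ‖q‖ = 1)
    (huv : (v : U) * (u : U) = q • ((u : U) * (v : U))) :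
    Commute (QuotientGroup.mk u : unitary U ⧸ ScG U) (QuotientGroup.mk v) := by
  rw [commute_iff_eq, ← QuotientGroup.mk_mul, ← QuotientGroup.mk_mul, rel_iff]
  exact ⟨q, hq, by rw [Submonoid.coe_mul, Submonoid.coe_mul, huv]⟩

theorem mk_mon_mul {u v : unitary U} {q : ℂ} (hq : ‖q‖ = 1)
    (huv : (v : U) * (u : U) = q • ((u : U) * (v : U))) (g h : Multiplicative (Fin 2 → ℤ)) :
    (QuotientGroup.mk (mon u v (g * h)) : unitary U ⧸ ScG U)
      = QuotientGroup.mk (mon u v g) * QuotientGroup.mk (mon u v h) := by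
  have hc := mk_comm hq huv
  rw [mk_mon, mk_mon, mk_mon]
  have e : ∀ i, Multiplicative.toAdd (g * h) i = Multiplicative.toAdd g i + Multiplicative.toAdd h i :=
    fun i => rfl
  rw [e, e, zpow_add, zpow_add]
  have := (hc.zpow_zpow (Multiplicative.toAdd h 0) (Multiplicative.toAdd g 1)).eq
  rw [mul_assoc, mul_assoc, ← mul_assoc _ (QuotientGroup.mk v ^ Multiplicative.toAdd g 1) _,
    ← mul_assoc (QuotientGroup.mk v ^ Multiplicative.toAdd g 1), this]

/-- the span of the monomials is everything -/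
theorem span_mon {u v : unitary U} {q : ℂ} (hq : ‖q‖ = 1)
    (huv : (v : U) * (u : U) = q • ((u : U) * (v : U)))
    (hgen : (StarAlgebra.adjoin ℂ {(u : U), (v : U)}).topologicalClosure = ⊤) :
    (Submodule.span ℂ (Set.range fun g => (mon u v g : U))).topologicalClosure = ⊤ := by
  set S := Submodule.span ℂ (Set.range fun g => (mon u v g : U)) with hS
  have hmem : ∀ g, (mon u v g : U) ∈ S := fun g => Submodule.subset_span ⟨g, rfl⟩
  have hmul : ∀ x ∈ S, ∀ y ∈ S, x * y ∈ S := by
    intro x hx y hy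
    have h1 : x * y ∈ S * S := Submodule.mul_mem_mul hx hy
    have h2 : S * S ≤ S := by
      rw [hS, Submodule.span_mul_span, Submodule.span_le]
      rintro _ ⟨_, ⟨g, rfl⟩, _, ⟨h, rfl⟩, rfl⟩
      have h3 := mk_mon_mul hq huv g h
      rw [← QuotientGroup.mk_mul, rel_iff] at h3
      obtain ⟨c, _, h4⟩ := h3
      simp only
      rw [← Submonoid.coe_mul, h4]
      exact Submodule.smul_mem _ _ (hmem _)
    exact h2 h1
  have hone : (1 : U) ∈ S := by
    have := hmem 1
    simpa [mon] using this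
  have hstar : ∀ x ∈ S, star x ∈ S := by
    intro x hx
    induction hx using Submodule.span_induction with
    | mem x hx =>
      obtain ⟨g, rfl⟩ := hx
      have h3 : (QuotientGroup.mk (mon u v g⁻¹) : unitary U ⧸ ScG U)
          = QuotientGroup.mk (mon u v g)⁻¹ := by
        rw [QuotientGroup.mk_inv, eq_inv_iff_mul_eq_one, ← mk_mon_mul hq huv, inv_mul_cancel]
        simp [mon]
      rw [rel_iff] at h3
      obtain ⟨c, _, h4⟩ := h3
      simp only
      rw [← Unitary.coe_star, Unitary.star_eq_inv, h4]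
      exact Submodule.smul_mem _ _ (hmem _)
    | zero => rw [star_zero]; exact S.zero_mem
    | add x y _ _ hx hy => rw [star_add]; exact S.add_mem hx hy
    | smul c x _ hx => rw [star_smul]; exact S.smul_mem _ hx
  have hle : ∀ x ∈ StarAlgebra.adjoin ℂ {(u : U), (v : U)}, x ∈ S := by
    intro x hx
    induction hx using StarAlgebra.adjoin_induction with
    | mem x hx =>
      rcases hx with rfl | rfl
      · have := hmem (Multiplicative.ofAdd ![1, 0])
        simpa [mon] using this
      · have := hmem (Multiplicative.ofAdd ![0, 1])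
        simpa [mon] using this
    | algebraMap r => rw [Algebra.algebraMap_eq_smul_one]; exact S.smul_mem _ hone
    | add x y _ _ hx hy => exact S.add_mem hx hy
    | mul x y _ _ hx hy => exact hmul x hx y hy
    | star x _ hx => exact hstar x hx
  rw [eq_top_iff]
  intro x _
  have h1 : x ∈ (StarAlgebra.adjoin ℂ {(u : U), (v : U)}).topologicalClosure := by
    rw [hgen]; trivial
  have h2 : x ∈ closure ((StarAlgebra.adjoin ℂ {(u : U), (v : U)} : StarSubalgebra ℂ U) : Set U) := h1
  exact closure_mono hle h2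

theorem pow_one_add {M : Matrix (Fin 2) (Fin 2) ℤ} (h : M * M = 0) (n : ℕ) :
    (1 + M) ^ n = 1 + n • M := by
  induction n with
  | zero => simp
  | succ n ih =>
    rw [pow_succ, ih, mul_add, mul_one, add_mul, one_mul, smul_mul_assoc, h, smul_zero, add_zero,
      succ_nsmul]
    abel

/-- integral `2 × 2` matrices with determinant `± 1` and all eigenvalues on the unit circle -/
theorem matrix_cases (M : Matrix (Fin 2) (Fin 2) ℤ)
    (hM : (M.det = 1 ∧ |M.trace| ≤ 2) ∨ (M.det = -1 ∧ M.trace = 0)) :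
    (M ^ 12 - 1) * (M ^ 12 - 1) = 0 := by
  have hCH : M * M = M.trace • M - M.det • (1 : Matrix (Fin 2) (Fin 2) ℤ) := by
    ext i j
    rw [Matrix.sub_apply, Matrix.smul_apply, Matrix.smul_apply, Matrix.mul_apply,
      Fin.sum_univ_two, smul_eq_mul, smul_eq_mul, Matrix.trace_fin_two, Matrix.det_fin_two]
    fin_cases i <;> fin_cases j
    · simp only [Fin.zero_eta, Matrix.one_apply_eq]; ring
    · simp only [Fin.zero_eta, Fin.mk_one, Matrix.one_apply, if_neg (by decide : (0 : Fin 2) ≠ 1)]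
      ring
    · simp only [Fin.zero_eta, Fin.mk_one, Matrix.one_apply, if_neg (by decide : (1 : Fin 2) ≠ 0)]
      ring
    · simp only [Fin.mk_one, Matrix.one_apply_eq]; ring
  have h12 : M ^ 12 = (M * M) ^ 6 := by rw [← pow_two, ← pow_mul]
  have h12' : M ^ 12 = (M * M * M) ^ 4 := by
    rw [show M * M * M = M ^ 3 by rw [pow_succ, pow_two], ← pow_mul]
  have hz : M ^ 12 = 1 → (M ^ 12 - 1) * (M ^ 12 - 1) = 0 := fun h => by rw [h, sub_self, zero_mul]
  rcases hM with ⟨hd, ht⟩ | ⟨hd, ht⟩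
  · rw [hd, one_smul] at hCH
    obtain ⟨h1, h2⟩ := abs_le.1 ht
    have h3 : M.trace = -2 ∨ M.trace = -1 ∨ M.trace = 0 ∨ M.trace = 1 ∨ M.trace = 2 := by omega
    rcases h3 with h3 | h3 | h3 | h3 | h3
    · rw [h3] at hCH
      have hE : (-(2 : ℤ) • (M + 1)) * (-(2 : ℤ) • (M + 1)) = 0 := by
        rw [smul_mul_smul_comm, add_mul, mul_add, mul_one, one_mul, hCH]
        module
      have e : M * M = 1 + (-(2 : ℤ) • (M + 1)) := by rw [hCH]; module
      rw [h12, e, pow_one_add hE, add_sub_cancel_left, smul_mul_smul_comm, hE, smul_zero]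
    · rw [h3] at hCH
      apply hz
      have e : M * M * M = 1 := by
        rw [hCH, sub_mul, smul_mul_assoc, one_mul, hCH]; module
      rw [h12', e, one_pow]
    · rw [h3] at hCH
      apply hz
      have e : M * M = -1 := by rw [hCH]; module
      rw [h12, e]
      exact Even.neg_one_pow (by decide)
    · rw [h3] at hCH
      apply hz
      have e : M * M * M = -1 := by
        rw [hCH, sub_mul, smul_mul_assoc, one_mul, hCH]; module
      rw [h12', e]
      exact Even.neg_one_pow (by decide)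
    · rw [h3] at hCH
      have hE : (M - 1) * (M - 1) = 0 := by
        rw [sub_mul, mul_sub, mul_one, one_mul, hCH]
        module
      have e : M = 1 + (M - 1) := by abel
      have h4 : M ^ 12 = 1 + (12 : ℕ) • (M - 1) := by
        conv_lhs => rw [e]
        exact pow_one_add hE 12
      rw [h4, add_sub_cancel_left, smul_mul_smul_comm, hE, smul_zero]
  · rw [hd, ht] at hCH
    apply hz
    have e : M * M = 1 := by rw [hCH]; module
    rw [h12, e, one_pow]

/-- **Noncommutative two-tori** -/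
theorem main_torus (hAP : APCase) (hQ : ∀ A, QM A) (u v : unitary U) (q : ℂ) (hq : ‖q‖ = 1)
    (huv : (v : U) * (u : U) = q • ((u : U) * (v : U)))
    (hgen : (StarAlgebra.adjoin ℂ {(u : U), (v : U)}).topologicalClosure = ⊤)
    (α : U →⋆ₐ[ℂ] U) (M : Matrix (Fin 2) (Fin 2) ℤ)
    (hM : (M.det = 1 ∧ |M.trace| ≤ 2) ∨ (M.det = -1 ∧ M.trace = 0))
    (z₁ z₂ : ℂ) (hz₁ : ‖z₁‖ = 1) (hz₂ : ‖z₂‖ = 1)
    (hu : α u = z₁ • ((u ^ M 0 0 * v ^ M 1 0 : unitary U) : U))
    (hv : α v = z₂ • ((u ^ M 0 1 * v ^ M 1 1 : unitary U) : U)) : ∀ x, PP α x := by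
  set φ : Multiplicative (Fin 2 → ℤ) → Multiplicative (Fin 2 → ℤ) :=
    fun g => Multiplicative.ofAdd (M.mulVec (Multiplicative.toAdd g)) with hφd
  have hc := mk_comm hq huv
  let A : unitary U →* unitary U :=
    { toFun := fun x => ⟨α x, Unitary.map_mem α x.2⟩
      map_one' := by ext; simp
      map_mul' := fun x y => by ext; simp }
  have hAc : ∀ x : unitary U, ((A x : unitary U) : U) = α x := fun x => rfl
  have hAu : (QuotientGroup.mk (A u) : unitary U ⧸ ScG U)
      = (QuotientGroup.mk u) ^ M 0 0 * (QuotientGroup.mk v) ^ M 1 0 := by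
    rw [← QuotientGroup.mk_zpow, ← QuotientGroup.mk_zpow, ← QuotientGroup.mk_mul]
    symm
    rw [rel_iff]
    exact ⟨z₁, hz₁, by rw [hAc, hu]⟩
  have hAv : (QuotientGroup.mk (A v) : unitary U ⧸ ScG U)
      = (QuotientGroup.mk u) ^ M 0 1 * (QuotientGroup.mk v) ^ M 1 1 := by
    rw [← QuotientGroup.mk_zpow, ← QuotientGroup.mk_zpow, ← QuotientGroup.mk_mul]
    symm
    rw [rel_iff]
    exact ⟨z₂, hz₂, by rw [hAc, hv]⟩
  have hφit : ∀ (n : ℕ) g, φ^[n] g = Multiplicative.ofAdd ((M ^ n).mulVec (Multiplicative.toAdd g)) := by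
    intro n
    induction n with
    | zero => intro g; simp
    | succ n ih =>
      intro g
      rw [Function.iterate_succ_apply, ih]
      simp only [hφd, toAdd_ofAdd, Matrix.mulVec_mulVec, pow_succ]
  refine main_group hAP hQ α (fun g => (mon u v g : U)) (fun g => (mon u v g).2) ?_
    (span_mon hq huv hgen) φ ?_ 12 (by norm_num) ?_
  · intro g h
    have h1 := mk_mon_mul hq huv g h
    rw [← QuotientGroup.mk_mul] at h1
    obtain ⟨c, hc', h2⟩ := (rel_iff _ _).1 h1.symm
    exact ⟨c, hc', by rw [h2, Submonoid.coe_mul]⟩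
  · intro g
    have h1 : (QuotientGroup.mk (mon u v (φ g)) : unitary U ⧸ ScG U)
        = QuotientGroup.mk (A (mon u v g)) := by
      rw [mk_mon]
      have e : A (mon u v g) = A u ^ (Multiplicative.toAdd g 0) * A v ^ (Multiplicative.toAdd g 1) := by
        rw [mon, map_mul, map_zpow, map_zpow]
      rw [e, QuotientGroup.mk_mul, QuotientGroup.mk_zpow, QuotientGroup.mk_zpow, hAu, hAv]
      set x : unitary U ⧸ ScG U := QuotientGroup.mk u
      set y : unitary U ⧸ ScG U := QuotientGroup.mk v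
      have e0 : Multiplicative.toAdd (φ g) 0 = M 0 0 * Multiplicative.toAdd g 0
          + M 0 1 * Multiplicative.toAdd g 1 := by
        simp [hφd, Matrix.mulVec, dotProduct, Fin.sum_univ_two]
      have e1 : Multiplicative.toAdd (φ g) 1 = M 1 0 * Multiplicative.toAdd g 0
          + M 1 1 * Multiplicative.toAdd g 1 := by
        simp [hφd, Matrix.mulVec, dotProduct, Fin.sum_univ_two]
      rw [e0, e1]
      have hxy : ∀ k l : ℤ, Commute (x ^ k) (y ^ l) := fun k l => hc.zpow_zpow k l
      rw [(hxy _ _).mul_zpow, (hxy _ _).mul_zpow, ← zpow_mul, ← zpow_mul, ← zpow_mul, ← zpow_mul,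
        zpow_add, zpow_add]
      have h5 := (hxy (M 0 1 * Multiplicative.toAdd g 1) (M 1 0 * Multiplicative.toAdd g 0)).eq
      rw [mul_assoc, ← mul_assoc _ (y ^ (M 1 0 * Multiplicative.toAdd g 0)), h5]
      simp only [mul_assoc]
    obtain ⟨c, hc', h2⟩ := (rel_iff _ _).1 h1
    exact ⟨c, hc', by rw [← hAc, h2]⟩
  · intro g
    have h1 := matrix_cases M hM
    rw [hφit, hφit]
    apply Multiplicative.toAdd.injective
    simp only [toAdd_ofAdd, toAdd_mul, toAdd_inv]
    have h2 := congrArg (fun N : Matrix (Fin 2) (Fin 2) ℤ => N.mulVec (Multiplicative.toAdd g)) h1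
    simp only [← Matrix.mulVec_mulVec, Matrix.sub_mulVec, Matrix.one_mulVec, Matrix.zero_mulVec] at h2
    rw [Matrix.mulVec_add, Matrix.mulVec_neg]
    rw [Matrix.mulVec_sub] at h2
    rw [sub_eq_zero] at h2
    have h3 := h2
    rw [neg_add_eq_sub, neg_add_eq_sub]
    exact h3

end

end Pool.Agent.Helper188.NCM
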